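import Pool.Agent.T6.H16.ME.S2

set_option autoImplicit false

/-! Polynomial automorphisms which fix the origin. -/

namespace Pool.Agent.T6.H16.ME

open MvPolynomial
open Pool.Agent.W428.MOT

variable {k : Type} [Field k] {R : Type} [CommRing R] {n N : ℕ}

/-- the action on the jets -/
noncomputable def tr (θ : MvPolynomial (Fin n) k →ₐ[k] MvPolynomial (Fin n) k)
    (z : Pt k (Fin n × Fin (N + 1))) : Pt k (Fin n × Fin (N + 1)) :=
  fun p => PowerSeries.coeff p.2 (aeval (arc z) (θ (X p.1)))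

theorem coeff_tr (θ : MvPolynomial (Fin n) k →ₐ[k] MvPolynomial (Fin n) k)
    (f : MvPolynomial (Fin n) k) (z : Pt k (Fin n × Fin (N + 1))) (l : ℕ) (hl : l ≤ N) :
    PowerSeries.coeff l (aeval (arc (tr θ z)) f) = PowerSeries.coeff l (aeval (arc z) (θ f)) := by
  have h1 : aeval (arc z) (θ f) = aeval (fun i => aeval (arc z) (θ (X i))) f := by
    have h2 : ((aeval (arc z)).comp θ : MvPolynomial (Fin n) k →ₐ[k]
        PowerSeries (AlgebraicClosure k)) = aeval (fun i => aeval (arc z) (θ (X i))) := by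
      refine MvPolynomial.algHom_ext fun i => ?_
      rw [aeval_X]
      rfl
    rw [← h2]
    rfl
  rw [h1]
  refine Pool.Agent.W375.MT.coeff_aeval_congr f N _ _ (fun i q hq => ?_) l hl
  rw [coeff_arc' _ _ _ (by omega)]
  rfl

theorem tr_tr (θ θ' : MvPolynomial (Fin n) k →ₐ[k] MvPolynomial (Fin n) k)
    (h : ∀ i, θ (θ' (X i)) = X i) (z : Pt k (Fin n × Fin (N + 1))) : tr θ' (tr θ z) = z := by
  funext p
  show PowerSeries.coeff p.2 (aeval (arc (tr θ z)) (θ' (X p.1))) = z p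
  rw [coeff_tr θ _ z p.2 (by have := p.2.2; omega), h, aeval_X,
    coeff_arc' _ _ _ (by have := p.2.2; omega)]

theorem tr_zero (θ : MvPolynomial (Fin n) k →ₐ[k] MvPolynomial (Fin n) k)
    (h0 : ∀ i, constantCoeff (θ (X i)) = 0) (z : Pt k (Fin n × Fin (N + 1)))
    (hz : ∀ i, z (i, 0) = 0) (i : Fin n) : tr θ z (i, 0) = 0 := by
  show PowerSeries.coeff ((0 : Fin (N + 1)) : ℕ) (aeval (arc z) (θ (X i))) = 0
  have h1 := Pool.Agent.W375.MT.coeff_aeval_congr (θ (X i)) 0 (arc z) (fun _ => 0)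
    (fun i' q hq => by
      have hq0 : q = 0 := by omega
      subst hq0
      rw [coeff_arc' _ _ _ (by omega), map_zero]
      exact hz i') 0 (le_refl 0)
  rw [Fin.val_zero, h1]
  have h2 : aeval (fun _ => (0 : PowerSeries (AlgebraicClosure k))) (θ (X i)) =
      algebraMap k _ (constantCoeff (θ (X i))) := by
    rw [aeval_zero']
  rw [h2, h0, map_zero, map_zero]

theorem tr_dact (θ : MvPolynomial (Fin n) k →ₐ[k] MvPolynomial (Fin n) k)
    (x : AlgebraicClosure k) (z : Pt k (Fin n × Fin (N + 1))) :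
    tr θ (dact (jw n N) x z) = dact (jw n N) x (tr θ z) := by
  funext p
  show PowerSeries.coeff p.2 (aeval (arc (dact (jw n N) x z)) (θ (X p.1))) = _
  rw [coeff_dact]
  show _ = x ^ (jw n N p) * _
  congr 1
  exact (zpow_natCast x _).symm

theorem mem_tr (θ : MvPolynomial (Fin n) k →ₐ[k] MvPolynomial (Fin n) k)
    (h0 : ∀ i, constantCoeff (θ (X i)) = 0) (F G : MvPolynomial (Fin n) k) (hF : θ F = G)
    (z : Pt k (Fin n × Fin (N + 1))) (hz : z ∈ Jc G N N) : tr θ z ∈ Jc F N N := by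
  refine ⟨fun i => tr_zero θ h0 z hz.1 i, fun l hl => ?_⟩
  rw [coeff_tr θ F z l hl, hF, hz.2 l hl]

/-- **Polynomial automorphisms do not change the series.** -/
theorem ser0_auto (M : EMeas (P0 k) R) (y : Rˣ) (F G : MvPolynomial (Fin n) k)
    (θ θ' : MvPolynomial (Fin n) k →ₐ[k] MvPolynomial (Fin n) k)
    (h1 : ∀ i, θ' (θ (X i)) = X i) (h2 : ∀ i, θ (θ' (X i)) = X i)
    (h01 : ∀ i, constantCoeff (θ (X i)) = 0) (h02 : ∀ i, constantCoeff (θ' (X i)) = 0)
    (hF : θ F = G) : ser0 M y F = ser0 M y G := by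
  ext N
  unfold ser0 af
  rw [PowerSeries.coeff_mk, PowerSeries.coeff_mk]
  split_ifs with hN
  · congr 1
    have h3 : θ' G = F := by
      rw [← hF]
      have h4 : θ'.comp θ = AlgHom.id k _ := MvPolynomial.algHom_ext fun i => h1 i
      exact congrFun (congrArg DFunLike.coe h4) F
    refine iso0 M (valid_Jc F N N hN) (valid_Jc G N N hN) (tr θ') (tr θ)
      (regularOn_poly (fun p => ?_) _) (regularOn_poly (fun p => ?_) _)
      (fun z hz => mem_tr θ' h02 G F h3 z hz) (fun z hz => mem_tr θ h01 F G hF z hz)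
      (fun z _ => tr_tr θ' θ h1 z) (fun z _ => tr_tr θ θ' h2 z)
      (fun x _ z _ => tr_dact θ' x z)
    · exact IsPA.aeval (fun i z => arc z i) (fun i => isPA_arc i) (θ' (X p.1)) p.2
    · exact IsPA.aeval (fun i z => arc z i) (fun i => isPA_arc i) (θ (X p.1)) p.2
  · rfl

end Pool.Agent.T6.H16.ME
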