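import Pool.Agent.T6.H16.ME.El
import Pool.Agent.Y229.RE.Emb2

set_option autoImplicit false

/-! The classes of the jets of `f + ∑ y_i z_i`. -/

namespace Pool.Agent.T6.H16.ME

open MvPolynomial
open Pool.Agent.W428.MOT
open Pool.Agent.Y229.RE (emb yv zv xv)
open Pool.Agent.W375.MT (echi_empty echi_biUnion)

variable {k : Type} [Field k] {R : Type} [CommRing R] {n κ N : ℕ}

/-- the `N`-jets with origin `0` on which the coefficients of `f` up to `j` are those of `t ^ N` -/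
def Jc (f : MvPolynomial (Fin n) k) (N j : ℕ) : Set (Pt k (Fin n × Fin (N + 1))) :=
  {z | (∀ i, z (i, 0) = 0) ∧
    ∀ l ≤ j, PowerSeries.coeff l (aeval (arc z) f) = if l = N then 1 else 0}

theorem coeff_dact (f : MvPolynomial (Fin n) k) (x : AlgebraicClosure k)
    (z : Pt k (Fin n × Fin (N + 1))) (l : ℕ) :
    PowerSeries.coeff l (aeval (arc (dact (jw n N) x z)) f) =
      x ^ l * PowerSeries.coeff l (aeval (arc z) f) := by
  have h1 : arc (dact (jw n N) x z) = fun i => PowerSeries.rescale x (arc z i) :=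
    funext fun i => arc_dact x z i
  rw [h1, aeval_rescale, PowerSeries.coeff_rescale]

theorem constr_Jc (f : MvPolynomial (Fin n) k) (N j : ℕ) : Constr (Jc f N j) := by
  refine Constr.and (Constr.all fun i => Constr.eqz (IsPF.coord _)) (Constr.allLe j fun l _ => ?_)
  refine Constr.eq (IsPA.aeval (fun i z => arc z i) (fun i => isPA_arc i) f l) ?_
  split_ifs
  · exact IsPF.one
  · exact IsPF.zero

theorem delta_pow {x : AlgebraicClosure k} {N : ℕ} (hx : x ^ N = 1) (l : ℕ) :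
    x ^ l * (if l = N then 1 else 0) = (if l = N then 1 else 0 : AlgebraicClosure k) := by
  split_ifs with h
  · rw [h, hx, mul_one]
  · rw [mul_zero]

theorem valid_Jc (f : MvPolynomial (Fin n) k) (N j : ℕ) (hN : 0 < N) :
    Valid (P0 k) (Jc f N j) (jw n N) N Fin.elim0 := by
  refine valid_mk (constr_Jc f N j) hN ?_
  rintro x hx z ⟨h1, h2⟩
  refine ⟨fun i => ?_, fun l hl => ?_⟩
  · show x ^ jw n N (i, 0) * z (i, 0) = 0
    rw [h1, mul_zero]
  · rw [coeff_dact, h2 l hl, delta_pow hx]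

/-- the `x`-part of a jet -/
def xr (z : Pt k (Fin (n + (κ + κ)) × Fin (N + 1))) : Pt k (Fin n × Fin (N + 1)) :=
  fun p => z (xv κ p.1, p.2)

theorem cases3 (i : Fin (n + (κ + κ))) :
    (∃ a : Fin n, i = xv κ a) ∨ (∃ b : Fin κ, i = yv n b) ∨ ∃ b : Fin κ, i = zv n b := by
  refine Fin.addCases (fun a => Or.inl ⟨a, rfl⟩) (fun c => ?_) i
  refine Fin.addCases (fun b => Or.inr (Or.inl ⟨b, rfl⟩)) (fun b => Or.inr (Or.inr ⟨b, rfl⟩)) c

theorem xv_lt (a : Fin n) : ((xv κ a : Fin (n + (κ + κ))) : ℕ) < n := a.2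

theorem yv_ge (b : Fin κ) : n ≤ ((yv n b : Fin (n + (κ + κ))) : ℕ) := by simp [yv]

theorem zv_ge (b : Fin κ) : n ≤ ((zv n b : Fin (n + (κ + κ))) : ℕ) := by simp [zv]

theorem xv_of_lt (i : Fin (n + (κ + κ))) (h : (i : ℕ) < n) : i = xv κ ⟨i, h⟩ := Fin.ext rfl

/-- extension by zero -/
noncomputable def ex0 (z : Pt k (Fin n × Fin (N + 1))) : Pt k (Fin (n + (κ + κ)) × Fin (N + 1)) :=
  fun p => if h : (p.1 : ℕ) < n then z (⟨p.1, h⟩, p.2) else 0

theorem isPF_ex0 (p : Fin (n + (κ + κ)) × Fin (N + 1)) :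
    IsPF (fun z : Pt k (Fin n × Fin (N + 1)) => ex0 z p) := by
  unfold ex0
  split_ifs
  · exact IsPF.coord _
  · exact IsPF.zero

theorem ex0_xv (z : Pt k (Fin n × Fin (N + 1))) (a : Fin n) (l : Fin (N + 1)) :
    (ex0 z : Pt k (Fin (n + (κ + κ)) × Fin (N + 1))) (xv κ a, l) = z (a, l) := by
  unfold ex0
  exact dif_pos (xv_lt a)

theorem ex0_ge (z : Pt k (Fin n × Fin (N + 1))) (p : Fin (n + (κ + κ)) × Fin (N + 1))
    (h : n ≤ (p.1 : ℕ)) : (ex0 z : Pt k (Fin (n + (κ + κ)) × Fin (N + 1))) p = 0 := by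
  unfold ex0
  exact dif_neg (not_lt.2 h)

theorem xr_ex0 (z : Pt k (Fin n × Fin (N + 1))) :
    xr (ex0 z : Pt k (Fin (n + (κ + κ)) × Fin (N + 1))) = z := by
  funext p
  exact ex0_xv z p.1 p.2

/-- **cylinders** -/
theorem cyl (M : EMeas (P0 k) R) (T : Set (Pt k (Fin n × Fin (N + 1))))
    (hT : Valid (P0 k) T (jw n N) N Fin.elim0)
    (F0 F1 : Finset (Fin (n + (κ + κ)) × Fin (N + 1))) (hd : Disjoint F0 F1)
    (h0 : ∀ p ∈ F0, n ≤ (p.1 : ℕ)) (h1 : ∀ p ∈ F1, n ≤ (p.1 : ℕ)) :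
    M.χ _ {z : Pt k (Fin (n + (κ + κ)) × Fin (N + 1)) | (xr z ∈ T ∧
      ∀ p : Fin (n + (κ + κ)) × Fin (N + 1), n ≤ (p.1 : ℕ) → p ∉ F0 → p ∉ F1 → z p = 0) ∧
        ∀ p ∈ F0, z p ≠ 0} (jw _ N) N Fin.elim0 =
      M.χ _ T (jw n N) N Fin.elim0 * (M.L - 1) ^ F0.card * M.L ^ F1.card := by
  classical
  have hnx : ∀ p : Fin n × Fin (N + 1), ((xv κ p.1, p.2) :
      Fin (n + (κ + κ)) × Fin (N + 1)) ∉ F0 ∪ F1 := by
    intro p h
    have h2 : ((xv κ p.1 : Fin (n + (κ + κ))) : ℕ) < n := xv_lt p.1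
    rcases Finset.mem_union.1 h with h | h
    · exact absurd (h0 _ h) (not_le.2 h2)
    · exact absurd (h1 _ h) (not_le.2 h2)
  set S : Set (Pt k (Fin (n + (κ + κ)) × Fin (N + 1))) := {z | xr z ∈ T ∧
      ∀ p : Fin (n + (κ + κ)) × Fin (N + 1), n ≤ (p.1 : ℕ) → p ∉ F0 → p ∉ F1 → z p = 0} with hS
  have hSc : Constr S := by
    refine Constr.and (hT.constr.preimage (fun z => xr z) fun p => IsPF.coord _)
      (Constr.all fun p => Constr.imp' fun _ => Constr.imp' fun _ => Constr.imp' fun _ => ?_)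
    exact Constr.eqz (IsPF.coord _)
  have hxr : ∀ (x : AlgebraicClosure k) (z : Pt k (Fin (n + (κ + κ)) × Fin (N + 1))),
      xr (dact (jw _ N) x z) = dact (jw n N) x (xr z) := fun x z => rfl
  have hSV : Valid (P0 k) S (jw _ N) N Fin.elim0 := by
    refine valid_mk hSc hT.pos ?_
    rintro x hx z ⟨g1, g2⟩
    refine ⟨?_, fun p g3 g4 g5 => ?_⟩
    · rw [hxr]
      exact hT.stable x hx _ g1
    · show x ^ jw _ N p * z p = 0
      rw [g2 p g3 g4 g5, mul_zero]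
  have hFree : S_EFree := Pool.Agent.W230.ME.Free.main
  have e1 := hFree M S (jw _ N) N Fin.elim0 F0 F1 (fun _ => 0) hd hSV (fun i => i.elim0) (by
    rintro z w hzw ⟨g1, g2⟩
    refine ⟨?_, fun p g3 g4 g5 => ?_⟩
    · have : xr w = xr z := by
        funext p
        exact hzw _ (fun h => hnx p (Finset.mem_union_left _ h))
          (fun h => hnx p (Finset.mem_union_right _ h))
      rw [this]
      exact g1
    · rw [hzw p g4 g5]
      exact g2 p g3 g4 g5)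
  have e2 : {z : Pt k (Fin (n + (κ + κ)) × Fin (N + 1)) | (xr z ∈ T ∧
      ∀ p : Fin (n + (κ + κ)) × Fin (N + 1), n ≤ (p.1 : ℕ) → p ∉ F0 → p ∉ F1 → z p = 0) ∧
        ∀ p ∈ F0, z p ≠ 0} = S ∩ {z | ∀ i ∈ F0, z i ≠ 0} := rfl
  rw [e2, e1]
  congr 2
  -- the last isomorphism
  have hxr' : ∀ (x : AlgebraicClosure k) (z : Pt k (Fin (n + (κ + κ)) × Fin (N + 1))),
      xr (dact (fun i => if i ∈ F0 ∪ F1 then 0 else jw _ N i) x z) =
        dact (jw n N) x (xr z) := by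
    intro x z
    funext p
    unfold xr dact
    beta_reduce
    rw [if_neg (hnx p)]
    rfl
  have hval : Valid (P0 k) (S ∩ {z | ∀ i ∈ F0 ∪ F1, z i = algebraMap k _ ((fun _ => 0 : _ → k) i)})
      (fun i => if i ∈ F0 ∪ F1 then 0 else jw _ N i) N Fin.elim0 := by
    refine valid_mk (hSc.inter (Constr.ballFinset _ fun p _ => ?_)) hT.pos ?_
    · exact Constr.eq (IsPF.coord _) (IsPF.const _)
    · rintro x hx z ⟨⟨g1, g2⟩, g6⟩
      refine ⟨⟨?_, fun p g3 g4 g5 => ?_⟩, fun p hp => ?_⟩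
      · rw [hxr']
        exact hT.stable x hx _ g1
      · show x ^ _ * z p = 0
        rw [g2 p g3 g4 g5, mul_zero]
      · have h2 := g6 p hp
        show x ^ _ * z p = _
        rw [h2, map_zero, mul_zero]
  have hall : ∀ z ∈ (S ∩ {z | ∀ i ∈ F0 ∪ F1, z i = algebraMap k _ ((fun _ => 0 : _ → k) i)}),
      ∀ p : Fin (n + (κ + κ)) × Fin (N + 1), n ≤ (p.1 : ℕ) → z p = 0 := by
    rintro z ⟨⟨g1, g2⟩, g6⟩ p g3
    by_cases h : p ∈ F0 ∪ F1
    · rw [g6 p h, map_zero]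
    · rw [Finset.mem_union, not_or] at h
      exact g2 p g3 h.1 h.2
  refine iso0 M hval hT (fun z => xr z) (fun z => ex0 z)
    (regularOn_poly (fun p => IsPF.coord _) _) (regularOn_poly (fun p => isPF_ex0 p) _)
    (fun z hz => hz.1.1) ?_ ?_ ?_ ?_
  · intro z hz
    refine ⟨⟨?_, fun p g3 _ _ => ex0_ge z p g3⟩, fun p hp => ?_⟩
    · rw [xr_ex0]
      exact hz
    · have h3 : n ≤ (p.1 : ℕ) := (Finset.mem_union.1 hp).elim (h0 p) (h1 p)
      rw [map_zero]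
      exact ex0_ge z p h3
  · rintro z hz
    funext p
    obtain ⟨i, l⟩ := p
    rcases Nat.lt_or_ge (i : ℕ) n with h | h
    · rw [xv_of_lt i h]
      exact ex0_xv _ _ _
    · show ex0 (xr z) (i, l) = _
      rw [ex0_ge _ _ h]
      exact (hall z hz (i, l) h).symm
  · intro z _
    exact xr_ex0 z
  · intro x _ z _
    exact hxr' x z

end Pool.Agent.T6.H16.ME
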