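import Pool.Agent.T6.H16.ME.Q

set_option autoImplicit false

/-! The classes of the jets of `f + ∑ y_i z_i`, continued. -/

namespace Pool.Agent.T6.H16.ME

open MvPolynomial
open Pool.Agent.W428.MOT
open Pool.Agent.Y229.RE (emb yv zv xv)
open Pool.Agent.W375.MT (echi_empty echi_biUnion)

variable {k : Type} [Field k] {R : Type} [CommRing R] {n κ N : ℕ}

/-- `f + ∑ y_i z_i` -/
noncomputable def hyp (f : MvPolynomial (Fin n) k) (κ : ℕ) : MvPolynomial (Fin (n + (κ + κ))) k :=
  rename (xv κ) f + ∑ i : Fin κ, X (yv n i) * X (zv n i)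

theorem coeff_arc' (z : Pt k (Fin n × Fin (N + 1))) (i : Fin n) (l : ℕ) (h : l < N + 1) :
    PowerSeries.coeff l (arc z i) = z (i, ⟨l, h⟩) := by
  rw [arc, PowerSeries.coeff_mk, dif_pos h]

theorem aeval_hyp (f : MvPolynomial (Fin n) k) (z : Pt k (Fin (n + (κ + κ)) × Fin (N + 1))) :
    aeval (arc z) (hyp f κ) = aeval (arc (xr z)) f +
      ∑ i : Fin κ, arc z (yv n i) * arc z (zv n i) := by
  unfold hyp
  rw [map_add, map_sum, aeval_rename]
  congr 1
  refine Finset.sum_congr rfl fun i _ => ?_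
  rw [map_mul, aeval_X, aeval_X]

theorem prod_low {F : Type} [Field F] (P Q : PowerSeries F) (j : ℕ)
    (hP : ∀ l < j, PowerSeries.coeff l P = 0) (hQ : PowerSeries.coeff 0 Q = 0) (l : ℕ)
    (hl : l ≤ j) : PowerSeries.coeff l (P * Q) = 0 := by
  rw [PowerSeries.coeff_mul]
  refine Finset.sum_eq_zero fun p hp => ?_
  replace hp := Finset.HasAntidiagonal.mem_antidiagonal.1 hp
  rcases Nat.lt_or_ge p.1 j with h | h
  · rw [hP _ h, zero_mul]
  · have h2 : p.2 = 0 := by omega
    rw [h2, hQ, mul_zero]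

theorem yv_inj {i j : Fin κ} (h : (yv n i : Fin (n + (κ + κ))) = yv n j) : i = j := by
  have := congrArg Fin.val h
  simp only [yv, Fin.val_natAdd, Fin.val_castAdd] at this
  exact Fin.ext (by omega)

theorem zv_inj {i j : Fin κ} (h : (zv n i : Fin (n + (κ + κ))) = zv n j) : i = j := by
  have := congrArg Fin.val h
  simp only [zv, Fin.val_natAdd] at this
  exact Fin.ext (by omega)

theorem yv_ne_zv (i j : Fin κ) : (yv n i : Fin (n + (κ + κ))) ≠ zv n j := by
  intro h
  have := congrArg Fin.val h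
  simp only [yv, zv, Fin.val_natAdd, Fin.val_castAdd] at this
  omega

theorem xv_ne_zv (i : Fin n) (j : Fin κ) : (xv κ i : Fin (n + (κ + κ))) ≠ zv n j := by
  intro h
  have h1 := congrArg Fin.val h
  have h2 : ((xv κ i : Fin (n + (κ + κ))) : ℕ) < n := xv_lt i
  have h3 : n ≤ ((zv n j : Fin (n + (κ + κ))) : ℕ) := zv_ge j
  omega

theorem xv_ne_yv (i : Fin n) (j : Fin κ) : (xv κ i : Fin (n + (κ + κ))) ≠ yv n j := by
  intro h
  have h1 := congrArg Fin.val h
  have h2 : ((xv κ i : Fin (n + (κ + κ))) : ℕ) < n := xv_lt i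
  have h3 : n ≤ ((yv n j : Fin (n + (κ + κ))) : ℕ) := yv_ge j
  omega

/-- the effect of a change of one coordinate of `z_{i0}` -/
theorem upd (f : MvPolynomial (Fin n) k) (z : Pt k (Fin (n + (κ + κ)) × Fin (N + 1)))
    (i0 : Fin κ) (q : Fin (N + 1)) (w : AlgebraicClosure k) (t : ℕ) :
    PowerSeries.coeff t (aeval (arc (Function.update z (zv n i0, q) w)) (hyp f κ)) =
      PowerSeries.coeff t (aeval (arc z) (hyp f κ)) + (w - z (zv n i0, q)) *
        (if (q : ℕ) ≤ t then PowerSeries.coeff (t - q) (arc z (yv n i0)) else 0) := by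
  classical
  have hx : xr (Function.update z (zv n i0, q) w) = xr z := by
    funext p
    unfold xr
    rw [Function.update_of_ne]
    intro h
    exact xv_ne_zv _ _ (congrArg Prod.fst h)
  have hy : ∀ i : Fin κ, arc (Function.update z (zv n i0, q) w) (yv n i) = arc z (yv n i) := by
    intro i
    ext l
    unfold arc
    rw [PowerSeries.coeff_mk, PowerSeries.coeff_mk]
    split_ifs with h
    · rw [Function.update_of_ne]
      intro h
      exact yv_ne_zv _ _ (congrArg Prod.fst h)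
    · rfl
  have hz : ∀ i : Fin κ, arc (Function.update z (zv n i0, q) w) (zv n i) = arc z (zv n i) +
      if i = i0 then PowerSeries.C (w - z (zv n i0, q)) * PowerSeries.X ^ (q : ℕ) else 0 := by
    intro i
    ext l
    rw [map_add]
    split_ifs with hi
    · subst hi
      rw [PowerSeries.coeff_C_mul, PowerSeries.coeff_X_pow]
      rcases Nat.lt_or_ge l (N + 1) with h | h
      · rw [coeff_arc' _ _ _ h, coeff_arc' _ _ _ h]
        by_cases hl : l = (q : ℕ)
        · have h2 : (⟨l, h⟩ : Fin (N + 1)) = q := Fin.ext hl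
          rw [h2, Function.update_self, if_pos hl]
          ring
        · rw [if_neg hl, mul_zero, add_zero, Function.update_of_ne]
          intro h2
          exact hl (congrArg (fun p : Fin (n + (κ + κ)) × Fin (N + 1) => (p.2 : ℕ)) h2)
      · have h2 : l ≠ (q : ℕ) := by
          have := q.2
          omega
        rw [if_neg h2, mul_zero, add_zero]
        unfold arc
        rw [PowerSeries.coeff_mk, PowerSeries.coeff_mk, dif_neg (by omega), dif_neg (by omega)]
    · rw [map_zero, add_zero]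
      unfold arc
      rw [PowerSeries.coeff_mk, PowerSeries.coeff_mk]
      split_ifs with h
      · rw [Function.update_of_ne]
        intro h
        exact hi (zv_inj (congrArg Prod.fst h))
      · rfl
  rw [aeval_hyp, aeval_hyp, hx]
  have hsum : ∑ i : Fin κ, arc (Function.update z (zv n i0, q) w) (yv n i) *
      arc (Function.update z (zv n i0, q) w) (zv n i) =
      ∑ i : Fin κ, arc z (yv n i) * arc z (zv n i) + PowerSeries.C (w - z (zv n i0, q)) *
        (arc z (yv n i0) * PowerSeries.X ^ (q : ℕ)) := by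
    simp only [hy, hz, mul_add, Finset.sum_add_distrib]
    congr 1
    rw [Finset.sum_eq_single i0]
    · rw [if_pos rfl]
      ring
    · intro i _ hi
      rw [if_neg hi, mul_zero]
    · intro h
      exact absurd (Finset.mem_univ _) h
  rw [hsum, ← add_assoc, map_add (PowerSeries.coeff t), PowerSeries.coeff_C_mul,
    PowerSeries.coeff_mul_X_pow']

/-- the strata -/
def Dst (j : Fin (N + 1)) (i0 : Fin κ) : Set (Pt k (Fin (n + (κ + κ)) × Fin (N + 1))) :=
  {z | (∀ i (l : Fin (N + 1)), (l : ℕ) < j → z (yv n i, l) = 0) ∧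
    (∀ i, i < i0 → z (yv n i, j) = 0) ∧ z (yv n i0, j) ≠ 0}

theorem low_zero (z : Pt k (Fin (n + (κ + κ)) × Fin (N + 1))) (j : Fin (N + 1))
    (h1 : ∀ i (l : Fin (N + 1)), (l : ℕ) < j → z (yv n i, l) = 0)
    (h2 : ∀ i, z (zv n i, 0) = 0) (l : ℕ) (hl : l ≤ j) :
    PowerSeries.coeff l (∑ i : Fin κ, arc z (yv n i) * arc z (zv n i)) = 0 := by
  rw [map_sum]
  refine Finset.sum_eq_zero fun i _ => prod_low _ _ j (fun l hl => ?_) ?_ l hl
  · rw [coeff_arc' _ _ _ (by omega)]
    exact h1 i _ hl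
  · rw [coeff_arc' _ _ _ (by omega)]
    exact h2 i

/-- the free coordinates among the `y` -/
def Fy (κ : ℕ) (j : Fin (N + 1)) (i0 : Fin κ) : Finset (Fin κ × Fin (N + 1)) :=
  Finset.univ ×ˢ Finset.Ioi j ∪ Finset.Ioi i0 ×ˢ {j}

/-- the free coordinates among the `z` -/
def Fz (κ : ℕ) (m : Fin (N + 1)) (i0 : Fin κ) : Finset (Fin κ × Fin (N + 1)) :=
  Finset.univ ×ˢ Finset.Ioi 0 \ {i0} ×ˢ Finset.Ioc 0 m

theorem card_Fy (j : Fin (N + 1)) (i0 : Fin κ) :
    (Fy κ j i0).card = κ * (N - j) + (κ - 1 - i0) := by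
  unfold Fy
  rw [Finset.card_union_of_disjoint, Finset.card_product, Finset.card_product, Fin.card_Ioi,
    Fin.card_Ioi, Finset.card_univ, Fintype.card_fin, Finset.card_singleton, mul_one]
  · congr 2
  · rw [Finset.disjoint_left]
    rintro ⟨i, l⟩ h1 h2
    simp only [Finset.mem_product, Finset.mem_univ, Finset.mem_Ioi, true_and,
      Finset.mem_singleton] at h1 h2
    rw [h2.2] at h1
    exact lt_irrefl _ h1

theorem card_Fz (m : Fin (N + 1)) (i0 : Fin κ) :
    (Fz κ m i0).card = (κ - 1) * N + (N - m) := by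
  unfold Fz
  rw [Finset.card_sdiff_of_subset, Finset.card_product, Finset.card_product, Fin.card_Ioi,
    Fin.card_Ioc, Finset.card_univ, Fintype.card_fin, Finset.card_singleton, one_mul]
  · obtain ⟨κ', rfl⟩ : ∃ κ', κ = κ' + 1 := ⟨κ - 1, by have := i0.2; omega⟩
    have h1 := m.2
    simp only [Fin.val_zero, Nat.add_sub_cancel, Nat.sub_zero]
    rw [Nat.add_mul, Nat.one_mul]
    omega
  · intro q hq
    simp only [Finset.mem_product, Finset.mem_univ, Finset.mem_Ioi, true_and,
      Finset.mem_singleton, Finset.mem_Ioc] at hq ⊢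
    exact hq.2.1

/-- the free coordinates -/
def F1s (n : ℕ) (j m : Fin (N + 1)) (i0 : Fin κ) : Finset (Fin (n + (κ + κ)) × Fin (N + 1)) :=
  (Fy κ j i0).image (fun q => (yv n q.1, q.2)) ∪ (Fz κ m i0).image (fun q => (zv n q.1, q.2))

theorem card_F1s (j m : Fin (N + 1)) (i0 : Fin κ) :
    (F1s n j m i0).card = κ * (N - j) + (κ - 1 - i0) + ((κ - 1) * N + (N - m)) := by
  unfold F1s
  rw [Finset.card_union_of_disjoint, Finset.card_image_of_injective,
    Finset.card_image_of_injective, card_Fy, card_Fz]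
  · rintro ⟨a, b⟩ ⟨c, d⟩ h
    simp only [Prod.mk.injEq] at h
    exact Prod.ext (zv_inj h.1) h.2
  · rintro ⟨a, b⟩ ⟨c, d⟩ h
    simp only [Prod.mk.injEq] at h
    exact Prod.ext (yv_inj h.1) h.2
  · rw [Finset.disjoint_left]
    intro p h1 h2
    obtain ⟨q, -, hq⟩ := Finset.mem_image.1 h1
    obtain ⟨q', -, hq'⟩ := Finset.mem_image.1 h2
    rw [← hq] at hq'
    exact yv_ne_zv _ _ (congrArg Prod.fst hq').symm

theorem mem_F1s_y (j m : Fin (N + 1)) (i0 i : Fin κ) (l : Fin (N + 1)) :
    (yv n i, l) ∈ F1s n j m i0 ↔ j < l ∨ (l = j ∧ i0 < i) := by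
  unfold F1s Fy
  rw [Finset.mem_union]
  constructor
  · rintro (h | h)
    · obtain ⟨⟨a, b⟩, h1, h2⟩ := Finset.mem_image.1 h
      simp only [Prod.mk.injEq] at h2
      obtain ⟨h3, rfl⟩ := h2
      rw [yv_inj h3] at h1
      simp only [Finset.mem_union, Finset.mem_product, Finset.mem_univ, Finset.mem_Ioi, true_and,
        Finset.mem_singleton] at h1
      rcases h1 with h1 | h1
      · exact Or.inl h1
      · exact Or.inr ⟨h1.2, h1.1⟩
    · obtain ⟨⟨a, b⟩, h1, h2⟩ := Finset.mem_image.1 h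
      simp only [Prod.mk.injEq] at h2
      exact absurd h2.1.symm (yv_ne_zv _ _)
  · intro h
    left
    rw [Finset.mem_image]
    refine ⟨(i, l), ?_, rfl⟩
    simp only [Finset.mem_union, Finset.mem_product, Finset.mem_univ, Finset.mem_Ioi, true_and,
      Finset.mem_singleton]
    rcases h with h | h
    · exact Or.inl h
    · exact Or.inr ⟨h.2, h.1⟩

theorem mem_F1s_z (j m : Fin (N + 1)) (i0 i : Fin κ) (l : Fin (N + 1)) :
    (zv n i, l) ∈ F1s n j m i0 ↔ 0 < l ∧ ¬ (i = i0 ∧ l ≤ m) := by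
  unfold F1s Fz
  rw [Finset.mem_union]
  constructor
  · rintro (h | h)
    · obtain ⟨⟨a, b⟩, h1, h2⟩ := Finset.mem_image.1 h
      simp only [Prod.mk.injEq] at h2
      exact absurd h2.1 (yv_ne_zv _ _)
    · obtain ⟨⟨a, b⟩, h1, h2⟩ := Finset.mem_image.1 h
      simp only [Prod.mk.injEq] at h2
      obtain ⟨h3, rfl⟩ := h2
      rw [zv_inj h3] at h1
      simp only [Finset.mem_sdiff, Finset.mem_product, Finset.mem_univ, Finset.mem_Ioi, true_and,
        Finset.mem_singleton, Finset.mem_Ioc] at h1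
      exact ⟨h1.1, fun h4 => h1.2 ⟨h4.1, h1.1, h4.2⟩⟩
  · rintro ⟨h1, h2⟩
    right
    rw [Finset.mem_image]
    refine ⟨(i, l), ?_, rfl⟩
    simp only [Finset.mem_sdiff, Finset.mem_product, Finset.mem_univ, Finset.mem_Ioi, true_and,
      Finset.mem_singleton, Finset.mem_Ioc]
    exact ⟨h1, fun h4 => h2 ⟨h4.1, h4.2.2⟩⟩

end Pool.Agent.T6.H16.ME
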