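import Pool.Agent.T6.H16.ME.Q2

set_option autoImplicit false

/-! The classes of the jets of `f + ∑ y_i z_i`: the strata and the sum. -/

namespace Pool.Agent.T6.H16.ME

open MvPolynomial
open Pool.Agent.W428.MOT
open Pool.Agent.Y229.RE (emb yv zv xv)
open Pool.Agent.W375.MT (echi_empty echi_biUnion)

variable {k : Type} [Field k] {R : Type} [CommRing R] {n κ N : ℕ}

/-- the coordinates which are eliminated -/
def pc (n : ℕ) (i0 : Fin κ) (N l : ℕ) : Fin (n + (κ + κ)) × Fin (N + 1) :=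
  (zv n i0, if h : l + 1 < N + 1 then ⟨l + 1, h⟩ else 0)

theorem pc_eq (i0 : Fin κ) {l : ℕ} (h : l + 1 < N + 1) :
    pc n i0 N l = (zv n i0, ⟨l + 1, h⟩) := by
  unfold pc
  rw [dif_pos h]

/-- the equations -/
noncomputable def uc (f : MvPolynomial (Fin n) k) (κ N j l : ℕ)
    (z : Pt k (Fin (n + (κ + κ)) × Fin (N + 1))) : AlgebraicClosure k :=
  PowerSeries.coeff (j + l + 1) (aeval (arc z) (hyp f κ)) - if j + l + 1 = N then 1 else 0

theorem isPF_uc (f : MvPolynomial (Fin n) k) (κ N j l : ℕ) : IsPF (uc f κ N j l) := by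
  unfold uc
  refine IsPF.sub (IsPA.aeval (fun i z => arc z i) (fun i => isPA_arc i) (hyp f κ) (j + l + 1)) ?_
  split_ifs
  · exact IsPF.one
  · exact IsPF.zero

/-- the set without the equations -/
def Vs (f : MvPolynomial (Fin n) k) (j : Fin (N + 1)) (i0 : Fin κ) :
    Set (Pt k (Fin (n + (κ + κ)) × Fin (N + 1))) :=
  {z | (xr z ∈ Jc f N j ∧ ∀ i, z (zv n i, 0) = 0) ∧ z ∈ Dst j i0}

theorem constr_Dst (j : Fin (N + 1)) (i0 : Fin κ) :
    Constr (Dst j i0 : Set (Pt k (Fin (n + (κ + κ)) × Fin (N + 1)))) := by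
  refine Constr.and (Constr.all fun i => Constr.all fun l => Constr.imp' fun _ => ?_)
    (Constr.and (Constr.all fun i => Constr.imp' fun _ => ?_) ?_)
  · exact Constr.eqz (IsPF.coord _)
  · exact Constr.eqz (IsPF.coord _)
  · exact (Constr.eqz (IsPF.coord _)).not

theorem dact_ne {ι : Type} {ρ : ι → ℤ} {x : AlgebraicClosure k} (hx : x ≠ 0) (z : Pt k ι) (p : ι) :
    dact ρ x z p ≠ 0 ↔ z p ≠ 0 := by
  unfold dact
  rw [Ne, mul_eq_zero, not_or]
  exact ⟨fun h => h.2, fun h => ⟨zpow_ne_zero _ hx, h⟩⟩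

theorem dact_zero {ι : Type} {ρ : ι → ℤ} {x : AlgebraicClosure k} {z : Pt k ι} {p : ι}
    (h : z p = 0) : dact ρ x z p = 0 := by
  unfold dact
  rw [h, mul_zero]

theorem stable_Dst (j : Fin (N + 1)) (i0 : Fin κ) {x : AlgebraicClosure k} (hx : x ≠ 0)
    {z : Pt k (Fin (n + (κ + κ)) × Fin (N + 1))} (hz : z ∈ Dst j i0) :
    dact (jw _ N) x z ∈ Dst j i0 :=
  ⟨fun i l hl => dact_zero (hz.1 i l hl), fun i hi => dact_zero (hz.2.1 i hi),
    (dact_ne hx z _).2 hz.2.2⟩

theorem ne_zero_of_pow {x : AlgebraicClosure k} {N : ℕ} (hN : 0 < N) (hx : x ^ N = 1) : x ≠ 0 := by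
  rintro rfl
  rw [zero_pow hN.ne'] at hx
  exact zero_ne_one hx

theorem valid_Vs (f : MvPolynomial (Fin n) k) (hN : 0 < N) (j : Fin (N + 1)) (i0 : Fin κ) :
    Valid (P0 k) (Vs f j i0) (jw _ N) N Fin.elim0 := by
  refine valid_mk (Constr.and (Constr.and ((constr_Jc f N j).preimage (fun z => xr z)
    fun p => IsPF.coord _) (Constr.all fun i => Constr.eqz (IsPF.coord _))) (constr_Dst j i0))
    hN ?_
  rintro x hx z ⟨⟨h1, h2⟩, h3⟩
  refine ⟨⟨(valid_Jc f N j hN).stable x hx _ h1, fun i => dact_zero (h2 i)⟩,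
    stable_Dst j i0 (ne_zero_of_pow hN hx) h3⟩

theorem jet_Vs (f : MvPolynomial (Fin n) k) (hN : 0 < N) (j : Fin (N + 1)) (hj : 0 < (j : ℕ))
    (i0 : Fin κ) : Jc (hyp f κ) N N ∩ Dst j i0 =
      Vs f j i0 ∩ {z | ∀ l < N - (j : ℕ), uc f κ N j l z = 0} := by
  have hjN := j.2
  ext z
  constructor
  · rintro ⟨⟨h1, h2⟩, h3⟩
    have hlow := low_zero z j h3.1 (fun i => h1 _)
    refine ⟨⟨⟨⟨fun i => h1 _, fun l hl => ?_⟩, fun i => h1 _⟩, h3⟩, fun l hl => ?_⟩
    · have h4 := h2 l (by omega)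
      rw [aeval_hyp, map_add, hlow l hl, add_zero] at h4
      exact h4
    · show uc f κ N j l z = 0
      unfold uc
      rw [h2 _ (by omega), sub_self]
  · rintro ⟨⟨⟨⟨h1, h2⟩, h3⟩, h4⟩, h5⟩
    have hlow := low_zero z j h4.1 h3
    refine ⟨⟨fun i => ?_, fun l hl => ?_⟩, h4⟩
    · rcases cases3 i with ⟨a, rfl⟩ | ⟨b, rfl⟩ | ⟨b, rfl⟩
      · exact h1 a
      · exact h4.1 b 0 (by simpa using hj)
      · exact h3 b
    · rcases Nat.lt_or_ge (j : ℕ) l with h | h
      · obtain ⟨l', rfl⟩ : ∃ l', l = j + l' + 1 := ⟨l - j - 1, by omega⟩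
        have h6 : uc f κ N j l' z = 0 := h5 l' (by omega)
        unfold uc at h6
        exact sub_eq_zero.1 h6
      · rw [aeval_hyp, map_add, hlow l h, add_zero]
        exact h2 l h

theorem elim_Vs (M : EMeas (P0 k) R) (f : MvPolynomial (Fin n) k) (hN : 0 < N) (j : Fin (N + 1))
    (hj : 0 < (j : ℕ)) (i0 : Fin κ) :
    M.χ _ (Jc (hyp f κ) N N ∩ Dst j i0) (jw _ N) N Fin.elim0 =
      M.χ _ (Vs f j i0 ∩ {z | ∀ l < N - (j : ℕ), z (pc n i0 N l) = 0}) (jw _ N) N Fin.elim0 := by
  classical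
  have hjN := j.2
  rw [jet_Vs f hN j hj i0]
  refine elim M (jw _ N) N (pc n i0 N) (uc f κ N j) (fun z => z (yv n i0, j))
    (fun l => ((j + l + 1 : ℕ) : ℤ)) (fun l => isPF_uc f κ N j l) (IsPF.coord _) (N - j) (Vs f j i0)
    (valid_Vs f hN j i0) ?_ ?_ ?_ ?_ ?_ ?_ ?_
  · intro l hl l' hl' h
    rw [pc_eq i0 (by omega), pc_eq i0 (by omega)] at h
    have := congrArg (fun p : Fin (n + (κ + κ)) × Fin (N + 1) => (p.2 : ℕ)) h
    simp only at this
    omega
  · rintro z ⟨⟨h1, h2⟩, h3⟩ l hl w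
    rw [pc_eq i0 (by omega)]
    have hx : xr (Function.update z (zv n i0, ⟨l + 1, by omega⟩) w) = xr z := by
      funext p
      unfold xr
      rw [Function.update_of_ne]
      intro h
      exact xv_ne_zv _ _ (congrArg Prod.fst h)
    have hy : ∀ i q, Function.update z (zv n i0, ⟨l + 1, by omega⟩) w (yv n i, q) =
        z (yv n i, q) := by
      intro i q
      rw [Function.update_of_ne]
      intro h
      exact yv_ne_zv _ _ (congrArg Prod.fst h)
    refine ⟨⟨?_, fun i => ?_⟩, fun i q hq => ?_, fun i hi => ?_, ?_⟩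
    · rw [hx]
      exact h1
    · rw [Function.update_of_ne]
      · exact h2 i
      · intro h
        have := congrArg (fun p : Fin (n + (κ + κ)) × Fin (N + 1) => (p.2 : ℕ)) h
        simp at this
    · rw [hy]
      exact h3.1 i q hq
    · rw [hy]
      exact h3.2.1 i hi
    · rw [hy]
      exact h3.2.2
  · rintro z ⟨_, h3⟩
    exact h3.2.2
  · rintro z _ l hl w
    show Function.update z (pc n i0 N l) w (yv n i0, j) = z (yv n i0, j)
    rw [Function.update_of_ne]
    intro h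
    rw [pc_eq i0 (by omega)] at h
    exact yv_ne_zv _ _ (congrArg Prod.fst h)
  · rintro z ⟨_, h3⟩ l hl w
    rw [pc_eq i0 (by omega)]
    unfold uc
    rw [upd, if_pos (by simp only; omega)]
    have h4 : (j : ℕ) + l + 1 - ((⟨l + 1, by omega⟩ : Fin (N + 1)) : ℕ) = j := by
      simp only
      omega
    rw [h4, coeff_arc' _ _ _ j.2]
    ring
  · rintro z ⟨_, h3⟩ l l' h1 h2 w
    rw [pc_eq i0 (by omega)]
    unfold uc
    rw [upd]
    have h4 : (if ((⟨l' + 1, by omega⟩ : Fin (N + 1)) : ℕ) ≤ (j : ℕ) + l + 1 then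
        PowerSeries.coeff ((j : ℕ) + l + 1 - ((⟨l' + 1, by omega⟩ : Fin (N + 1)) : ℕ))
          (arc z (yv n i0)) else 0) = 0 := by
      split_ifs with h
      · rw [coeff_arc' _ _ _ (by simp only; omega)]
        refine h3.1 _ _ ?_
        simp only
        omega
      · rfl
    rw [h4, mul_zero, add_zero]
  · rintro z _ x hx l hl
    unfold uc
    rw [coeff_dact, zpow_natCast, mul_sub, delta_pow hx]

/-- **The class of a stratum.** -/
theorem stratum (M : EMeas (P0 k) R) (f : MvPolynomial (Fin n) k) (hN : 0 < N) (j : Fin (N + 1))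
    (hj : 0 < (j : ℕ)) (i0 : Fin κ) :
    M.χ _ (Jc (hyp f κ) N N ∩ Dst j i0) (jw _ N) N Fin.elim0 =
      M.χ _ (Jc f N j) (jw n N) N Fin.elim0 * (M.L - 1) *
        M.L ^ (κ * (N - j) + (κ - 1 - i0) + ((κ - 1) * N + j)) := by
  classical
  have hjN := j.2
  rw [elim_Vs M f hN j hj i0]
  set m : Fin (N + 1) := ⟨N - j, by omega⟩ with hm
  have h1 := cyl M (Jc f N j) (valid_Jc f N j hN) {(yv n i0, j)} (F1s n j m i0) (by
    rw [Finset.disjoint_singleton_left, mem_F1s_y]
    rintro (h | h)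
    · exact lt_irrefl _ h
    · exact lt_irrefl _ h.2) (by
    intro p hp
    rw [Finset.mem_singleton.1 hp]
    exact yv_ge i0) (by
    intro p hp
    unfold F1s at hp
    rcases Finset.mem_union.1 hp with h | h
    · obtain ⟨q, -, rfl⟩ := Finset.mem_image.1 h
      exact yv_ge _
    · obtain ⟨q, -, rfl⟩ := Finset.mem_image.1 h
      exact zv_ge _)
  rw [card_F1s, Finset.card_singleton, pow_one] at h1
  have h2 : N - (m : ℕ) = j := by
    simp only [hm]
    omega
  rw [h2] at h1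
  rw [← h1]
  congr 1
  ext z
  have hm' : (m : ℕ) = N - j := rfl
  constructor
  · rintro ⟨⟨⟨g1, g2⟩, g3, g4, g5⟩, g6⟩
    refine ⟨⟨g1, fun p hp1 hp2 hp3 => ?_⟩, fun p hp => ?_⟩
    · obtain ⟨i, l⟩ := p
      rcases cases3 i with ⟨a, rfl⟩ | ⟨b, rfl⟩ | ⟨b, rfl⟩
      · exact absurd hp1 (not_le.2 (xv_lt a))
      · rw [mem_F1s_y, not_or, not_and, not_lt, not_lt] at hp3
        rcases lt_or_eq_of_le hp3.1 with h | h
        · exact g3 b l h
        · subst h
          rcases lt_or_eq_of_le (hp3.2 rfl) with h | h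
          · exact g4 b h
          · subst h
            exact absurd (Finset.mem_singleton_self _) hp2
      · rw [mem_F1s_z, not_and, not_not] at hp3
        by_cases h0 : 0 < l
        · obtain ⟨rfl, h4⟩ := hp3 h0
          have h5 : 0 < (l : ℕ) := h0
          have h6 : (l : ℕ) ≤ N - j := h4
          have h7 := g6 (l - 1) (by omega)
          rw [pc_eq b (by omega)] at h7
          have h8 : (⟨(l : ℕ) - 1 + 1, by omega⟩ : Fin (N + 1)) = l := Fin.ext (by simp only; omega)
          rw [h8] at h7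
          exact h7
        · have h5 : l = 0 := by
            rw [not_lt] at h0
            exact le_antisymm h0 (Fin.zero_le _)
          rw [h5]
          exact g2 b
    · rw [Finset.mem_singleton.1 hp]
      exact g5
  · rintro ⟨⟨g1, g2⟩, g3⟩
    refine ⟨⟨⟨g1, fun i => ?_⟩, fun i l hl => ?_, fun i hi => ?_, ?_⟩, fun l hl => ?_⟩
    · refine g2 _ (zv_ge i) ?_ ?_
      · rw [Finset.mem_singleton]
        intro h
        exact yv_ne_zv _ _ (congrArg Prod.fst h).symm
      · rw [mem_F1s_z]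
        rintro ⟨h, -⟩
        exact lt_irrefl _ h
    · refine g2 _ (yv_ge i) ?_ ?_
      · rw [Finset.mem_singleton]
        intro h
        have := congrArg (fun p : Fin (n + (κ + κ)) × Fin (N + 1) => (p.2 : ℕ)) h
        simp only at this
        omega
      · rw [mem_F1s_y]
        rintro (h | h)
        · exact lt_asymm h hl
        · rw [h.1] at hl
          exact lt_irrefl _ hl
    · refine g2 _ (yv_ge i) ?_ ?_
      · rw [Finset.mem_singleton]
        intro h
        rw [yv_inj (congrArg Prod.fst h)] at hi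
        exact lt_irrefl _ hi
      · rw [mem_F1s_y]
        rintro (h | h)
        · exact lt_irrefl _ h
        · exact lt_asymm h.2 hi
    · exact g3 _ (Finset.mem_singleton_self _)
    · show z (pc n i0 N l) = 0
      rw [pc_eq i0 (by omega)]
      refine g2 _ (zv_ge i0) ?_ ?_
      · rw [Finset.mem_singleton]
        intro h
        exact yv_ne_zv _ _ (congrArg Prod.fst h).symm
      · rw [mem_F1s_z]
        rintro ⟨-, h⟩
        apply h
        refine ⟨rfl, ?_⟩
        show l + 1 ≤ N - (j : ℕ)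
        omega

/-- the stratum with all `y_i = 0` -/
theorem stratum0 (M : EMeas (P0 k) R) (f : MvPolynomial (Fin n) k) (hN : 0 < N) :
    M.χ _ (Jc (hyp f κ) N N ∩ {z | ∀ i l, z (yv n i, l) = 0}) (jw _ N) N Fin.elim0 =
      M.χ _ (Jc f N N) (jw n N) N Fin.elim0 * M.L ^ (κ * N) := by
  classical
  set F1 : Finset (Fin (n + (κ + κ)) × Fin (N + 1)) :=
    ((Finset.univ : Finset (Fin κ)) ×ˢ Finset.Ioi (0 : Fin (N + 1))).image
      (fun q => (zv n q.1, q.2)) with hF1
  have hcard : F1.card = κ * N := by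
    rw [hF1, Finset.card_image_of_injective, Finset.card_product, Fin.card_Ioi, Finset.card_univ,
      Fintype.card_fin]
    · simp
    · rintro ⟨a, b⟩ ⟨c, d⟩ h
      simp only [Prod.mk.injEq] at h
      exact Prod.ext (zv_inj h.1) h.2
  have hmem : ∀ i l, (zv n i, l) ∈ F1 ↔ 0 < l := by
    intro i l
    rw [hF1, Finset.mem_image]
    constructor
    · rintro ⟨⟨a, b⟩, h1, h2⟩
      simp only [Prod.mk.injEq] at h2
      rw [Finset.mem_product, Finset.mem_Ioi] at h1
      rw [← h2.2]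
      exact h1.2
    · intro h
      exact ⟨(i, l), Finset.mem_product.2 ⟨Finset.mem_univ _, Finset.mem_Ioi.2 h⟩, rfl⟩
  have h1 := cyl M (Jc f N N) (valid_Jc f N N hN) ∅ F1 (Finset.disjoint_empty_left _) (by simp) (by
    intro p hp
    rw [hF1] at hp
    obtain ⟨q, -, rfl⟩ := Finset.mem_image.1 hp
    exact zv_ge _)
  rw [hcard, Finset.card_empty, pow_zero, mul_one] at h1
  rw [← h1]
  congr 1
  ext z
  constructor
  · rintro ⟨⟨g1, g2⟩, g3⟩
    refine ⟨⟨⟨fun i => g1 _, fun l hl => ?_⟩, fun p hp1 _ hp3 => ?_⟩, by simp⟩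
    · have h4 := g2 l hl
      rw [aeval_hyp, map_add] at h4
      have h5 : ∑ i : Fin κ, arc z (yv n i) * arc z (zv n i) = 0 := by
        refine Finset.sum_eq_zero fun i _ => ?_
        have h6 : arc z (yv n i) = 0 := by
          ext l
          unfold arc
          rw [PowerSeries.coeff_mk, map_zero]
          split_ifs
          · exact g3 _ _
          · rfl
        rw [h6, zero_mul]
      rw [h5, map_zero, add_zero] at h4
      exact h4
    · obtain ⟨i, l⟩ := p
      rcases cases3 i with ⟨a, rfl⟩ | ⟨b, rfl⟩ | ⟨b, rfl⟩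
      · exact absurd hp1 (not_le.2 (xv_lt a))
      · exact g3 _ _
      · rw [hmem, not_lt] at hp3
        rw [le_antisymm hp3 (Fin.zero_le _)]
        exact g1 _
  · rintro ⟨⟨⟨g0, g1⟩, g2⟩, -⟩
    have g3 : ∀ i l, z (yv n i, l) = 0 := by
      intro i l
      refine g2 _ (yv_ge i) (by simp) ?_
      intro h
      rw [hF1] at h
      obtain ⟨q, -, hq⟩ := Finset.mem_image.1 h
      exact yv_ne_zv _ _ (congrArg Prod.fst hq).symm
    refine ⟨⟨fun i => ?_, fun l hl => ?_⟩, g3⟩
    · rcases cases3 i with ⟨a, rfl⟩ | ⟨b, rfl⟩ | ⟨b, rfl⟩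
      · exact g0 a
      · exact g3 _ _
      · exact g2 _ (zv_ge b) (by simp) (by rw [hmem]; exact lt_irrefl _)
    · rw [aeval_hyp, map_add]
      have h5 : ∑ i : Fin κ, arc z (yv n i) * arc z (zv n i) = 0 := by
        refine Finset.sum_eq_zero fun i _ => ?_
        have h6 : arc z (yv n i) = 0 := by
          ext l
          unfold arc
          rw [PowerSeries.coeff_mk, map_zero]
          split_ifs
          · exact g3 _ _
          · rfl
        rw [h6, zero_mul]
      rw [h5, map_zero, add_zero]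
      exact g1 l hl

end Pool.Agent.T6.H16.ME
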