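import Pool.Agent.T6.H16.ME.Q3

set_option autoImplicit false

/-! The classes of the jets of `f + ∑ y_i z_i`: the sum, and the series. -/

namespace Pool.Agent.T6.H16.ME

open MvPolynomial
open Pool.Agent.W428.MOT
open Pool.Agent.Y229.RE (emb yv zv xv)
open Pool.Agent.W375.MT (echi_empty echi_biUnion)

variable {k : Type} [Field k] {R : Type} [CommRing R] {n κ N : ℕ}

theorem dst_disj {j j' : Fin (N + 1)} {i i' : Fin κ} (h : (j, i) ≠ (j', i')) :
    Disjoint (Dst j i : Set (Pt k (Fin (n + (κ + κ)) × Fin (N + 1)))) (Dst j' i') := by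
  rw [Set.disjoint_left]
  rintro z ⟨h1, h2, h3⟩ ⟨h4, h5, h6⟩
  rcases lt_trichotomy (j : ℕ) j' with hj | hj | hj
  · exact h3 (h4 i j hj)
  · have hj' : j = j' := Fin.ext hj
    subst hj'
    rcases lt_trichotomy i i' with hi | hi | hi
    · exact h3 (h5 i hi)
    · exact h (by rw [hi])
    · exact h6 (h2 i' hi)
  · exact h6 (h1 i' j' hj)

/-- the decomposition of the jets -/
theorem jet_union (f : MvPolynomial (Fin n) k) (N : ℕ) :
    Jc (hyp f κ) N N = (Jc (hyp f κ) N N ∩ {z | ∀ i l, z (yv n i, l) = 0}) ∪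
      ⋃ q ∈ (Finset.univ.filter fun q : Fin (N + 1) × Fin κ => 0 < (q.1 : ℕ)),
        Jc (hyp f κ) N N ∩ Dst q.1 q.2 := by
  classical
  ext z
  simp only [Set.mem_union, Set.mem_inter_iff, Set.mem_iUnion, Finset.mem_filter,
    Finset.mem_univ, true_and, exists_prop, Set.mem_ofPred_eq]
  constructor
  · intro hz
    by_cases h0 : ∀ i l, z (yv n i, l) = 0
    · exact Or.inl ⟨hz, h0⟩
    · right
      push Not at h0
      obtain ⟨i1, l1, h1⟩ := h0
      have hex : ∃ l : ℕ, ∃ (h : l < N + 1) (i : Fin κ), z (yv n i, ⟨l, h⟩) ≠ 0 :=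
        ⟨l1, l1.2, i1, h1⟩
      obtain ⟨hl, hi⟩ := Nat.find_spec hex
      have hmin : ∀ i (l : Fin (N + 1)), (l : ℕ) < Nat.find hex → z (yv n i, l) = 0 := by
        intro i l hl'
        by_contra hne
        exact Nat.find_min hex hl' ⟨l.2, i, hne⟩
      set j : Fin (N + 1) := ⟨Nat.find hex, hl⟩ with hj
      have hex2 : ∃ i : ℕ, ∃ h : i < κ, z (yv n ⟨i, h⟩, j) ≠ 0 := by
        obtain ⟨i, hi⟩ := hi
        exact ⟨i, i.2, hi⟩
      obtain ⟨hi1, hi2⟩ := Nat.find_spec hex2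
      refine ⟨(j, ⟨Nat.find hex2, hi1⟩), ?_, hz, hmin, fun i hi' => ?_, hi2⟩
      · by_contra h0
        have h3 : j = 0 := Fin.ext (by simpa using h0)
        exact hi2 ((congrArg (fun q => z (yv n ⟨Nat.find hex2, hi1⟩, q)) h3).trans (hz.1 _))
      · by_contra hne
        exact Nat.find_min hex2 hi' ⟨i.2, hne⟩
  · rintro (h | ⟨q, -, h, -⟩)
    · exact h.1
    · exact h

theorem geom_fin (L : R) (κ : ℕ) : ∑ i : Fin κ, (L - 1) * L ^ (κ - 1 - (i : ℕ)) = L ^ κ - 1 := by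
  rw [← Finset.mul_sum, Fin.sum_univ_eq_sum_range (fun i => L ^ (κ - 1 - i)) κ,
    Finset.sum_range_reflect (fun i => L ^ i) κ, mul_geom_sum]

/-- **The class of the jets of `f + ∑ y_i z_i`.** -/
theorem hyp_sum (M : EMeas (P0 k) R) (f : MvPolynomial (Fin n) k) (κ : ℕ) (hN : 0 < N) :
    M.χ _ (Jc (hyp f κ) N N) (jw _ N) N Fin.elim0 =
      M.χ _ (Jc f N N) (jw n N) N Fin.elim0 * M.L ^ (κ * N) +
      ∑ j ∈ Finset.Icc 1 N, M.χ _ (Jc f N j) (jw n N) N Fin.elim0 * (M.L ^ κ - 1) *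
        M.L ^ (κ * (N - j) + ((κ - 1) * N + j)) := by
  classical
  have hV := valid_Jc (hyp f κ) N N hN
  have hDV : ∀ q : Fin (N + 1) × Fin κ, Valid (P0 k) (Jc (hyp f κ) N N ∩ Dst q.1 q.2)
      (jw _ N) N Fin.elim0 := fun q =>
    valid_mk (hV.constr.inter (constr_Dst _ _)) hN fun x hx z hz =>
      ⟨hV.stable x hx z hz.1, stable_Dst _ _ (ne_zero_of_pow hN hx) hz.2⟩
  obtain ⟨e1, e2⟩ := echi_biUnion M hV
    (Finset.univ.filter fun q : Fin (N + 1) × Fin κ => 0 < (q.1 : ℕ))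
    (fun q => Jc (hyp f κ) N N ∩ Dst q.1 q.2) (fun q _ => hDV q) (fun q _ q' _ h =>
      (dst_disj (by simpa using h)).mono Set.inter_subset_right Set.inter_subset_right)
  have h0V : Valid (P0 k) (Jc (hyp f κ) N N ∩ {z | ∀ i l, z (yv n i, l) = 0})
      (jw _ N) N Fin.elim0 :=
    valid_mk (hV.constr.inter (Constr.all fun i => Constr.all fun l => Constr.eqz (IsPF.coord _)))
      hN fun x hx z hz => ⟨hV.stable x hx z hz.1, fun i l => dact_zero (hz.2 i l)⟩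
  have hdis : Disjoint (Jc (hyp f κ) N N ∩ {z | ∀ i l, z (yv n i, l) = 0})
      (⋃ q ∈ (Finset.univ.filter fun q : Fin (N + 1) × Fin κ => 0 < (q.1 : ℕ)),
        Jc (hyp f κ) N N ∩ Dst q.1 q.2) := by
    rw [Set.disjoint_left]
    rintro z ⟨-, h1⟩ h2
    simp only [Set.mem_iUnion] at h2
    obtain ⟨q, -, -, h3⟩ := h2
    exact h3.2.2 (h1 _ _)
  conv_lhs => rw [jet_union f N]
  rw [M.add _ _ _ _ _ h0V e2 hdis, e1, stratum0 M f hN]
  congr 1
  have h1 : ∀ q ∈ (Finset.univ.filter fun q : Fin (N + 1) × Fin κ => 0 < (q.1 : ℕ)),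
      M.χ _ (Jc (hyp f κ) N N ∩ Dst q.1 q.2) (jw _ N) N Fin.elim0 =
      M.χ _ (Jc f N q.1) (jw n N) N Fin.elim0 * (M.L - 1) *
        M.L ^ (κ * (N - q.1) + (κ - 1 - q.2) + ((κ - 1) * N + q.1)) := fun q hq =>
    stratum M f hN q.1 (Finset.mem_filter.1 hq).2 q.2
  rw [Finset.sum_congr rfl h1, Finset.sum_filter, Fintype.sum_prod_type]
  have h2 : ∀ j : Fin (N + 1), (∑ i : Fin κ, if 0 < (j : ℕ) then
      M.χ _ (Jc f N j) (jw n N) N Fin.elim0 * (M.L - 1) *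
        M.L ^ (κ * (N - j) + (κ - 1 - i) + ((κ - 1) * N + j)) else 0) =
      if 0 < (j : ℕ) then M.χ _ (Jc f N j) (jw n N) N Fin.elim0 * (M.L ^ κ - 1) *
        M.L ^ (κ * (N - j) + ((κ - 1) * N + j)) else 0 := by
    intro j
    split_ifs with h
    · rw [← geom_fin M.L κ, Finset.mul_sum, Finset.sum_mul]
      refine Finset.sum_congr rfl fun i _ => ?_
      rw [show κ * (N - (j : ℕ)) + (κ - 1 - (i : ℕ)) + ((κ - 1) * N + (j : ℕ)) =
        (κ - 1 - (i : ℕ)) + (κ * (N - (j : ℕ)) + ((κ - 1) * N + (j : ℕ))) by ring, pow_add]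
      ring
    · exact Finset.sum_const_zero
  simp only [h2]
  rw [Fin.sum_univ_eq_sum_range (fun j => if 0 < j then
      M.χ _ (Jc f N j) (jw n N) N Fin.elim0 * (M.L ^ κ - 1) *
        M.L ^ (κ * (N - j) + ((κ - 1) * N + j)) else 0) (N + 1), ← Finset.sum_filter]
  refine Finset.sum_congr ?_ fun _ _ => rfl
  ext j
  simp only [Finset.mem_filter, Finset.mem_range, Finset.mem_Icc]
  omega

end Pool.Agent.T6.H16.ME
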