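import Pool.Agent.T6.H16.ME.Q4
import Pool.Agent.TH216.MF.MotE

set_option autoImplicit false

/-! The equivariant motivic zeta functions of `f` and of `f + ∑ y_i z_i`. -/

namespace Pool.Agent.T6.H16.ME

open MvPolynomial
open Pool.Agent.W428.MOT
open Pool.Agent.Y229.RE (emb yv zv xv)
open Pool.Agent.TH216.MF (ratR geoR_mul geoR_mem XR_mem CR_mem)

variable {k : Type} [Field k] {R : Type} [CommRing R] {n κ N : ℕ}

/-- the `j`-jets with origin `0` on which `f` vanishes mod `t ^ (j + 1)` -/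
def Jz (f : MvPolynomial (Fin n) k) (j : ℕ) : Set (Pt k (Fin n × Fin (j + 1))) :=
  {z | (∀ i, z (i, 0) = 0) ∧ ∀ l ≤ j, PowerSeries.coeff l (aeval (arc z) f) = 0}

theorem constr_Jz (f : MvPolynomial (Fin n) k) (j : ℕ) : Constr (Jz f j) := by
  refine Constr.and (Constr.all fun i => Constr.eqz (IsPF.coord _)) (Constr.allLe j fun l _ => ?_)
  exact Constr.eqz (IsPA.aeval (fun i z => arc z i) (fun i => isPA_arc i) f l)

theorem gm_Jz (f : MvPolynomial (Fin n) k) (j : ℕ) (s : AlgebraicClosure k)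
    (z : Pt k (Fin n × Fin (j + 1))) (hz : z ∈ Jz f j) : dact (jw n j) s z ∈ Jz f j :=
  ⟨fun i => dact_zero (hz.1 i), fun l hl => by rw [coeff_dact, hz.2 l hl, mul_zero]⟩

/-- restriction to the jets of level `j` -/
def rsj (j : ℕ) (h : j ≤ N) (z : Pt k (Fin n × Fin (N + 1))) : Pt k (Fin n × Fin (j + 1)) :=
  fun p => z (p.1, ⟨p.2, by have := p.2.2; omega⟩)

/-- extension by zero -/
noncomputable def exj (j N : ℕ) (z : Pt k (Fin n × Fin (j + 1))) : Pt k (Fin n × Fin (N + 1)) :=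
  fun p => if h : (p.2 : ℕ) < j + 1 then z (p.1, ⟨p.2, h⟩) else 0

theorem rsj_exj (j : ℕ) (h : j ≤ N) (z : Pt k (Fin n × Fin (j + 1))) :
    rsj j h (exj j N z) = z := by
  funext p
  unfold rsj exj
  exact dif_pos p.2.2

theorem coeff_rsj (j : ℕ) (h : j ≤ N) (f : MvPolynomial (Fin n) k)
    (z : Pt k (Fin n × Fin (N + 1))) (l : ℕ) (hl : l ≤ j) :
    PowerSeries.coeff l (aeval (arc (rsj j h z)) f) = PowerSeries.coeff l (aeval (arc z) f) := by
  refine Pool.Agent.W375.MT.coeff_aeval_congr f j _ _ (fun i q hq => ?_) l hl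
  rw [coeff_arc' _ _ _ (by omega), coeff_arc' _ _ _ (by omega)]
  rfl

/-- **The conditions up to `j < N`: change of level and of group.** -/
theorem level (M : EMeas (P0 k) R) (f : MvPolynomial (Fin n) k) (j : ℕ) (hj : j < N) :
    M.χ _ (Jc f N j) (jw n N) N Fin.elim0 =
      M.χ _ (Jz f j) (jw n j) 1 Fin.elim0 * M.L ^ (n * (N - j)) := by
  classical
  have hN : 0 < N := by omega
  set F1 : Finset (Fin n × Fin (N + 1)) := Finset.univ ×ˢ Finset.Ioi ⟨j, by omega⟩ with hF1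
  have hcard : F1.card = n * (N - j) := by
    rw [hF1, Finset.card_product, Fin.card_Ioi, Finset.card_univ, Fintype.card_fin]
    simp
  have hmem : ∀ p, p ∈ F1 ↔ j < (p.2 : ℕ) := by
    intro p
    rw [hF1, Finset.mem_product, Finset.mem_Ioi]
    exact ⟨fun h => h.2, fun h => ⟨Finset.mem_univ _, h⟩⟩
  have hFree : S_EFree := Pool.Agent.W230.ME.Free.main
  have e1 := hFree M (Jc f N j) (jw n N) N Fin.elim0 ∅ F1 (fun _ => 0)
    (Finset.disjoint_empty_left _) (valid_Jc f N j hN) (fun i => i.elim0) (by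
    rintro z w hzw ⟨g1, g2⟩
    refine ⟨fun i => ?_, fun l hl => ?_⟩
    · rw [hzw (i, 0) (by simp) (by rw [hmem]; simp)]
      exact g1 i
    · rw [← g2 l hl]
      refine Pool.Agent.W375.MT.coeff_aeval_congr f j _ _ (fun i q hq => ?_) l hl
      rw [coeff_arc' _ _ _ (by omega), coeff_arc' _ _ _ (by omega)]
      exact hzw _ (by simp) (by rw [hmem]; simp only; omega))
  simp only [Finset.notMem_empty, false_implies, implies_true, Set.ofPred_true, Set.inter_univ,
    Finset.empty_union, map_zero, Finset.card_empty, pow_zero, mul_one, hcard] at e1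
  rw [e1]
  congr 1
  rw [gm M (Jz f j) (jw n j) (constr_Jz f j) (fun s _ z hz => gm_Jz f j s z hz) 1 N one_pos hN]
  have hle : j ≤ N := hj.le
  have hVz : Valid (P0 k) (Jz f j) (jw n j) N Fin.elim0 :=
    valid_mk (constr_Jz f j) hN fun x _ z hz => gm_Jz f j x z hz
  refine iso0 M (valid_mk ((constr_Jc f N j).inter (Constr.ballFinset _ fun p _ =>
    Constr.eqz (IsPF.coord _))) hN ?_) hVz (rsj j hle) (exj j N)
    (regularOn_poly (fun p => IsPF.coord _) _) (regularOn_poly (fun p => ?_) _) ?_ ?_ ?_ ?_ ?_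
  · rintro x hx z ⟨g1, g2⟩
    have hρ : dact (fun i => if i ∈ F1 then 0 else jw n N i) x z = dact (jw n N) x z := by
      funext p
      unfold dact
      by_cases hp : p ∈ F1
      · rw [show z p = 0 from g2 p hp, mul_zero, mul_zero]
      · beta_reduce
        rw [if_neg hp]
    rw [hρ]
    exact ⟨(valid_Jc f N j hN).stable x hx z g1, fun p hp => dact_zero (g2 p hp)⟩
  · unfold exj
    split_ifs with h
    · exact IsPF.coord _
    · exact IsPF.zero
  · rintro z ⟨⟨g1, g2⟩, _⟩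
    refine ⟨fun i => g1 i, fun l hl => ?_⟩
    rw [coeff_rsj j hle f z l hl, g2 l hl, if_neg (by omega)]
  · rintro z ⟨g1, g2⟩
    refine ⟨⟨fun i => ?_, fun l hl => ?_⟩, fun p hp => ?_⟩
    · unfold exj
      rw [dif_pos (by simp)]
      exact g1 i
    · rw [← coeff_rsj j hle f _ l hl, rsj_exj, g2 l hl, if_neg (by omega)]
    · show exj j N z p = 0
      unfold exj
      rw [dif_neg]
      have := (hmem p).1 hp
      omega
  · rintro z ⟨_, g2⟩
    funext p
    show exj j N (rsj j hle z) p = z p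
    unfold exj rsj
    split_ifs with h
    · rfl
    · exact (g2 p ((hmem p).2 (by omega))).symm
  · intro z _
    exact rsj_exj j hle z
  · rintro x _ z ⟨_, g2⟩
    funext p
    unfold rsj dact
    beta_reduce
    rw [if_neg]
    · rfl
    · rw [hmem]
      simp only
      have := p.2.2
      omega

/-! ### The series -/

/-- the coefficients -/
noncomputable def af (M : EMeas (P0 k) R) (y : Rˣ) (f : MvPolynomial (Fin n) k) (N : ℕ) : R :=
  M.χ _ (Jc f N N) (jw n N) N Fin.elim0 * ((y⁻¹ : Rˣ) : R) ^ (n * N)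

/-- the coefficients of the naive series -/
noncomputable def bf (M : EMeas (P0 k) R) (y : Rˣ) (f : MvPolynomial (Fin n) k) (j : ℕ) : R :=
  M.χ _ (Jz f j) (jw n j) 1 Fin.elim0 * ((y⁻¹ : Rˣ) : R) ^ (n * j)

theorem af_hyp (M : EMeas (P0 k) R) (y : Rˣ) (hy : M.L = y) (f : MvPolynomial (Fin n) k) (κ : ℕ)
    (hN : 0 < N) : (y : R) ^ (κ * N) * ((y⁻¹ : Rˣ) : R) ^ κ * af M y (hyp f κ) N =
      af M y f N + ((y : R) ^ κ - 1) * ((y⁻¹ : Rˣ) : R) *
        ∑ j ∈ Finset.Icc 1 (N - 1), bf M y f j * ((y : R) ^ (κ - 1)) ^ (N - 1 - j) := by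
  set Y : R := ((y⁻¹ : Rˣ) : R) with hY
  have hyY : ∀ m : ℕ, (y : R) ^ m * Y ^ m = 1 := by
    intro m
    rw [← mul_pow, hY, Units.mul_inv, one_pow]
  unfold af
  rw [hyp_sum M f κ hN, hy]
  rcases Nat.eq_zero_or_pos κ with rfl | hκ
  · simp only [pow_zero, sub_self, mul_zero, zero_mul, Finset.sum_const_zero, add_zero, one_mul,
      mul_one]
  obtain ⟨c, rfl⟩ : ∃ c, κ = c + 1 := ⟨κ - 1, by omega⟩
  obtain ⟨N', rfl⟩ : ∃ N', N = N' + 1 := ⟨N - 1, by omega⟩
  rw [Finset.sum_Icc_succ_top (by omega)]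
  have h1 : ∀ j ∈ Finset.Icc 1 N',
      M.χ _ (Jc f (N' + 1) j) (jw n (N' + 1)) (N' + 1) Fin.elim0 * ((y : R) ^ (c + 1) - 1) *
        (y : R) ^ ((c + 1) * (N' + 1 - j) + ((c + 1 - 1) * (N' + 1) + j)) *
        ((y : R) ^ ((c + 1) * (N' + 1)) * Y ^ (c + 1) *
          Y ^ ((n + ((c + 1) + (c + 1))) * (N' + 1))) =
      ((y : R) ^ (c + 1) - 1) * Y * (bf M y f j * ((y : R) ^ c) ^ (N' - j)) := by
    intro j hj
    rw [Finset.mem_Icc] at hj
    rw [level M f j (by omega), hy]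
    unfold bf
    rw [← hY]
    obtain ⟨e, rfl⟩ : ∃ e, N' = j + e := ⟨N' - j, by omega⟩
    have e1 : j + e + 1 - j = e + 1 := by omega
    have e2 : j + e - j = e := by omega
    rw [e1, e2, Nat.add_sub_cancel]
    have h2 : (y : R) ^ (n * (e + 1)) * (y : R) ^ ((c + 1) * (e + 1) + (c * (j + e + 1) + j)) *
        ((y : R) ^ ((c + 1) * (j + e + 1)) * Y ^ (c + 1) *
          Y ^ ((n + ((c + 1) + (c + 1))) * (j + e + 1))) =
        Y * (Y ^ (n * j) * ((y : R) ^ c) ^ e) := by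
      have h3 : (y : R) ^ (n * (e + 1)) * (y : R) ^ ((c + 1) * (e + 1) + (c * (j + e + 1) + j)) *
          ((y : R) ^ ((c + 1) * (j + e + 1)) * Y ^ (c + 1) *
          Y ^ ((n + ((c + 1) + (c + 1))) * (j + e + 1))) =
          ((y : R) ^ (n * (e + 1) + ((c + 1) * (e + 1) + (c * (j + e + 1) + j)) +
            (c + 1) * (j + e + 1) - c * e) *
          Y ^ (n * (e + 1) + ((c + 1) * (e + 1) + (c * (j + e + 1) + j)) +
            (c + 1) * (j + e + 1) - c * e)) * (Y * (Y ^ (n * j) * ((y : R) ^ c) ^ e)) := by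
        have h4 : c * e ≤ n * (e + 1) + ((c + 1) * (e + 1) + (c * (j + e + 1) + j)) +
            (c + 1) * (j + e + 1) := by nlinarith
        obtain ⟨s, hs⟩ := Nat.exists_eq_add_of_le h4
        rw [hs, Nat.add_sub_cancel_left]
        have h5 : (c + 1) + (n + ((c + 1) + (c + 1))) * (j + e + 1) = s + (1 + n * j) := by
          have h6 : c * e + s = n * (e + 1) + ((c + 1) * (e + 1) + (c * (j + e + 1) + j)) +
            (c + 1) * (j + e + 1) := hs.symm
          nlinarith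
        calc _ = ((y : R) ^ (n * (e + 1) + ((c + 1) * (e + 1) + (c * (j + e + 1) + j)) +
              (c + 1) * (j + e + 1))) *
              Y ^ ((c + 1) + (n + ((c + 1) + (c + 1))) * (j + e + 1)) := by ring
          _ = _ := by
              rw [hs, h5]
              ring
      rw [h3, hyY, one_mul]
    linear_combination (M.χ _ (Jz f j) (jw n j) 1 Fin.elim0 * ((y : R) ^ (c + 1) - 1)) * h2
  have h2 : (∑ j ∈ Finset.Icc 1 N',
      M.χ _ (Jc f (N' + 1) j) (jw n (N' + 1)) (N' + 1) Fin.elim0 * ((y : R) ^ (c + 1) - 1) *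
        (y : R) ^ ((c + 1) * (N' + 1 - j) + ((c + 1 - 1) * (N' + 1) + j))) *
        ((y : R) ^ ((c + 1) * (N' + 1)) * Y ^ (c + 1) *
          Y ^ ((n + ((c + 1) + (c + 1))) * (N' + 1))) =
      ((y : R) ^ (c + 1) - 1) * Y *
        ∑ j ∈ Finset.Icc 1 N', bf M y f j * ((y : R) ^ c) ^ (N' - j) := by
    rw [Finset.sum_mul, Finset.mul_sum]
    exact Finset.sum_congr rfl h1
  simp only [Nat.add_sub_cancel] at h2 ⊢
  rw [← h2]
  have h3 := hyY ((c + 1) * (N' + 1))
  have h4 := hyY (c + 1)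
  have e3 : N' + 1 - (N' + 1) = 0 := Nat.sub_self _
  rw [e3, mul_zero, zero_add]
  have e4 : c * (N' + 1) + (N' + 1) = (c + 1) * (N' + 1) := by ring
  rw [e4]
  have e5 : (n + (c + 1 + (c + 1))) * (N' + 1) =
      n * (N' + 1) + ((c + 1) * (N' + 1) + (c + 1) * (N' + 1)) := by ring
  rw [e5, pow_add, pow_add]
  set P := (y : R) ^ ((c + 1) * (N' + 1)) with hP
  set Q := Y ^ ((c + 1) * (N' + 1)) with hQ
  set a := (y : R) ^ (c + 1) with ha
  set b := Y ^ (c + 1) with hb
  set x := M.χ _ (Jc f (N' + 1) (N' + 1)) (jw n (N' + 1)) (N' + 1) Fin.elim0 with hx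
  set w := Y ^ (n * (N' + 1)) with hw
  linear_combination (x * w * b + x * w * (a - 1) * b) * (P * Q + 1) * h3 + x * w * h4

end Pool.Agent.T6.H16.ME
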