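import Pool.Agent.T6.H16.ME.S1

set_option autoImplicit false

/-! The zeta function of `f` from those of `f + ∑ y_i z_i` for two numbers of pairs `y_i, z_i`. -/

namespace Pool.Agent.T6.H16.ME

open MvPolynomial
open Pool.Agent.W428.MOT
open Pool.Agent.TH216.MF (ratR geoR_mul geoR_mem XR_mem CR_mem)

variable {k : Type} [Field k] {R : Type} [CommRing R] {n κ N : ℕ}

/-- the series -/
noncomputable def ser0 (M : EMeas (P0 k) R) (y : Rˣ) (f : MvPolynomial (Fin n) k) :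
    PowerSeries R := PowerSeries.mk fun N => if 0 < N then af M y f N else 0

/-- `1 + y + ⋯ + y ^ (κ - 1)` -/
noncomputable def sg (y : Rˣ) (κ : ℕ) : R := ∑ i ∈ Finset.range κ, (y : R) ^ i

theorem sg_mul (y : Rˣ) (κ : ℕ) : sg y κ * ((y : R) - 1) = (y : R) ^ κ - 1 := geom_sum_mul _ _

theorem sg_succ (y : Rˣ) (κ : ℕ) : sg y (κ + 1) = sg y κ + (y : R) ^ κ := Finset.sum_range_succ _ _

theorem sg_succ' (y : Rˣ) (κ : ℕ) : sg y (κ + 1) = (y : R) * sg y κ + 1 := by
  unfold sg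
  rw [Finset.sum_range_succ', Finset.mul_sum, pow_zero]
  congr 1
  exact Finset.sum_congr rfl fun i _ => pow_succ' _ _

/-- the normalised series of `f + ∑ y_i z_i` -/
noncomputable def Ak (M : EMeas (P0 k) R) (y : Rˣ) (f : MvPolynomial (Fin n) k) (κ : ℕ) :
    PowerSeries R :=
  PowerSeries.C (((y⁻¹ : Rˣ) : R) ^ κ) * PowerSeries.rescale ((y : R) ^ κ) (ser0 M y (hyp f κ))

/-- the naive series -/
noncomputable def Bs (M : EMeas (P0 k) R) (y : Rˣ) (f : MvPolynomial (Fin n) k) :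
    PowerSeries R := PowerSeries.mk fun N => if 0 < N then bf M y f N else 0

noncomputable def Ds (M : EMeas (P0 k) R) (y : Rˣ) (f : MvPolynomial (Fin n) k) (m : ℕ) :
    PowerSeries R := PowerSeries.mk fun N =>
  ∑ j ∈ Finset.Icc 1 (N - 1), bf M y f j * ((y : R) ^ m) ^ (N - 1 - j)

theorem ds_mul (M : EMeas (P0 k) R) (y : Rˣ) (f : MvPolynomial (Fin n) k) (m : ℕ) :
    Ds M y f m * (1 - PowerSeries.C ((y : R) ^ m) * PowerSeries.X) = Bs M y f * PowerSeries.X := by
  have e : Ds M y f m * (1 - PowerSeries.C ((y : R) ^ m) * PowerSeries.X) =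
      Ds M y f m - PowerSeries.C ((y : R) ^ m) * (Ds M y f m * PowerSeries.X) := by ring
  rw [e]
  ext N
  rw [map_sub, PowerSeries.coeff_C_mul]
  rcases N with _ | N
  · rw [PowerSeries.coeff_zero_mul_X, PowerSeries.coeff_zero_mul_X, mul_zero, sub_zero]
    unfold Ds
    rw [PowerSeries.coeff_mk]
    simp
  · rw [PowerSeries.coeff_succ_mul_X, PowerSeries.coeff_succ_mul_X]
    unfold Ds Bs
    rw [PowerSeries.coeff_mk, PowerSeries.coeff_mk, PowerSeries.coeff_mk]
    rcases N with _ | N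
    · simp
    · rw [if_pos (Nat.succ_pos _), Nat.add_sub_cancel, Nat.add_sub_cancel,
        Finset.sum_Icc_succ_top (by omega), Nat.sub_self, pow_zero, mul_one, Finset.mul_sum]
      have h1 : ∑ j ∈ Finset.Icc 1 N, bf M y f j * ((y : R) ^ m) ^ (N + 1 - j) =
          ∑ j ∈ Finset.Icc 1 N, (y : R) ^ m * (bf M y f j * ((y : R) ^ m) ^ (N - j)) := by
        refine Finset.sum_congr rfl fun j hj => ?_
        rw [Finset.mem_Icc] at hj
        have h2 : N + 1 - j = (N - j) + 1 := by omega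
        rw [h2, pow_succ]
        ring
      rw [h1]
      ring

theorem ak_eq (M : EMeas (P0 k) R) (y : Rˣ) (hy : M.L = y) (f : MvPolynomial (Fin n) k) (m : ℕ) :
    Ak M y f (m + 1) = ser0 M y f + PowerSeries.C (((y : R) ^ (m + 1) - 1) *
      ((y⁻¹ : Rˣ) : R)) * Ds M y f m := by
  ext N
  unfold Ak
  rw [PowerSeries.coeff_C_mul, PowerSeries.coeff_rescale, map_add, PowerSeries.coeff_C_mul]
  unfold ser0 Ds
  rw [PowerSeries.coeff_mk, PowerSeries.coeff_mk, PowerSeries.coeff_mk]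
  by_cases hN : 0 < N
  · rw [if_pos hN, if_pos hN]
    have h1 := af_hyp M y hy f (m + 1) hN
    rw [Nat.add_sub_cancel] at h1
    rw [← h1]
    ring
  · have hN0 : N = 0 := by omega
    subst hN0
    simp

/-- the first form -/
theorem ak_mul (M : EMeas (P0 k) R) (y : Rˣ) (hy : M.L = y) (f : MvPolynomial (Fin n) k) (m : ℕ) :
    (1 - PowerSeries.C ((y : R) ^ m) * PowerSeries.X) * Ak M y f (m + 1) =
      (1 - PowerSeries.C ((y : R) ^ m) * PowerSeries.X) * ser0 M y f +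
        PowerSeries.C (sg y (m + 1)) * (PowerSeries.C (((y : R) - 1) * ((y⁻¹ : Rˣ) : R)) *
          (Bs M y f * PowerSeries.X)) := by
  rw [ak_eq M y hy f m, ← ds_mul M y f m, ← sg_mul, map_mul, map_mul, map_mul]
  ring

/-- **Elimination of the naive series.** -/
theorem elimA (M : EMeas (P0 k) R) (y : Rˣ) (hy : M.L = y) (f : MvPolynomial (Fin n) k) (m : ℕ) :
    ser0 M y f * (PowerSeries.C ((y : R) ^ (m + 1)) *
      (1 - PowerSeries.C ((y⁻¹ : Rˣ) : R) * PowerSeries.X)) =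
      PowerSeries.C (sg y (m + 2)) * ((1 - PowerSeries.C ((y : R) ^ m) * PowerSeries.X) *
        Ak M y f (m + 1)) -
      PowerSeries.C (sg y (m + 1)) * ((1 - PowerSeries.C ((y : R) ^ (m + 1)) * PowerSeries.X) *
        Ak M y f (m + 2)) := by
  have h1 := ak_mul M y hy f m
  have h2 := ak_mul M y hy f (m + 1)
  rw [h1, h2]
  have h3 : PowerSeries.C (sg y (m + 2)) = PowerSeries.C (sg y (m + 1)) +
      PowerSeries.C ((y : R) ^ (m + 1)) := by rw [← map_add, ← sg_succ]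
  have h4 : PowerSeries.C (sg y (m + 2)) * PowerSeries.C ((y : R) ^ m) =
      PowerSeries.C (sg y (m + 1)) * PowerSeries.C ((y : R) ^ (m + 1)) +
        PowerSeries.C ((y : R) ^ m) := by
    rw [← map_mul, ← map_mul, ← map_add]
    congr 1
    rw [sg_succ' y (m + 1)]
    ring
  have h5 : PowerSeries.C ((y : R) ^ (m + 1)) * PowerSeries.C ((y⁻¹ : Rˣ) : R) =
      PowerSeries.C ((y : R) ^ m) := by
    rw [← map_mul, pow_succ, mul_assoc, Units.mul_inv, mul_one]
  linear_combination (-(ser0 M y f * PowerSeries.X)) * h5 - ser0 M y f * h3 +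
    (ser0 M y f * PowerSeries.X) * h4

/-! ### The ring of rational series -/

/-- the pairs `(a + κ b, b)` -/
def shiftS (κ : ℕ) (S : Set (ℤ × ℤ)) : Set (ℤ × ℤ) := (fun p => (p.1 + κ * p.2, p.2)) '' S

theorem geoR_unique (y : Rˣ) (a b : ℤ) (hb : 0 < b) (g : PowerSeries R)
    (hg : (1 - PowerSeries.C ((y ^ a : Rˣ) : R) * PowerSeries.X ^ b.toNat) * g = 1) :
    g = geoR y a b := by
  have h1 := geoR_mul y a b hb
  calc g = ((1 - PowerSeries.C ((y ^ a : Rˣ) : R) * PowerSeries.X ^ b.toNat) * geoR y a b) * g := by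
        rw [h1, one_mul]
    _ = ((1 - PowerSeries.C ((y ^ a : Rˣ) : R) * PowerSeries.X ^ b.toNat) * g) * geoR y a b := by
        ring
    _ = geoR y a b := by rw [hg, one_mul]

theorem rescale_C (a c : R) : PowerSeries.rescale a (PowerSeries.C c) = PowerSeries.C c := by
  ext N
  rw [PowerSeries.coeff_rescale, PowerSeries.coeff_C]
  split_ifs with h
  · rw [h, pow_zero, one_mul]
  · rw [mul_zero]

theorem rescale_X' (a : R) : PowerSeries.rescale a (PowerSeries.X : PowerSeries R) =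
    PowerSeries.C a * PowerSeries.X := by
  ext N
  rw [PowerSeries.coeff_rescale, PowerSeries.coeff_C_mul, PowerSeries.coeff_X]
  split_ifs with h
  · rw [h, pow_one]
  · rw [mul_zero, mul_zero]

theorem rescale_mem (y : Rˣ) (κ : ℕ) {S : Set (ℤ × ℤ)} (hS : ∀ p ∈ S, 0 < p.2)
    {z : PowerSeries R} (hz : z ∈ ratR y S) :
    PowerSeries.rescale ((y : R) ^ κ) z ∈ ratR y (shiftS κ S) := by
  unfold ratR at hz
  induction hz using Algebra.adjoin_induction with
  | mem g hg =>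
    rcases hg with hg | ⟨p, hp, rfl⟩
    · rw [Set.mem_singleton_iff.1 hg, rescale_X']
      exact (ratR y _).mul_mem (CR_mem y _ _) (XR_mem y _)
    · have hb := hS p hp
      have h1 := geoR_mul y p.1 p.2 hb
      have h2 := congrArg (PowerSeries.rescale ((y : R) ^ κ)) h1
      rw [map_mul, map_sub, map_one, map_mul, map_pow, rescale_C, rescale_X'] at h2
      have h3 : PowerSeries.C ((y ^ p.1 : Rˣ) : R) *
          (PowerSeries.C ((y : R) ^ κ) * PowerSeries.X) ^ p.2.toNat =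
          PowerSeries.C ((y ^ (p.1 + κ * p.2) : Rˣ) : R) * PowerSeries.X ^ p.2.toNat := by
        rw [mul_pow, ← mul_assoc, ← map_pow, ← map_mul]
        congr 2
        rw [zpow_add, Units.val_mul]
        congr 1
        rw [zpow_mul]
        nth_rewrite 2 [← Int.toNat_of_nonneg hb.le]
        rw [zpow_natCast, zpow_natCast, Units.val_pow_eq_pow_val, Units.val_pow_eq_pow_val]
      rw [h3] at h2
      rw [geoR_unique y _ _ hb _ h2]
      exact geoR_mem y (p := (p.1 + κ * p.2, p.2)) ⟨p, hp, rfl⟩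
  | algebraMap r =>
    have : algebraMap R (PowerSeries R) r = PowerSeries.C r := rfl
    rw [this, rescale_C]
    exact CR_mem y _ _
  | add a b _ _ ha hb =>
    rw [map_add]
    exact (ratR y _).add_mem ha hb
  | mul a b _ _ ha hb =>
    rw [map_mul]
    exact (ratR y _).mul_mem ha hb

theorem ratR_mono (y : Rˣ) {S T : Set (ℤ × ℤ)} (h : S ⊆ T) : ratR y S ≤ ratR y T := by
  refine Algebra.adjoin_mono ?_
  rintro g (hg | ⟨p, hp, rfl⟩)
  · exact Or.inl hg
  · exact Or.inr ⟨p, h hp, rfl⟩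

theorem ak_mem (M : EMeas (P0 k) R) (y : Rˣ) (f : MvPolynomial (Fin n) k) (m : ℕ)
    {S : Set (ℤ × ℤ)} (hS : ∀ p ∈ S, 0 < p.2)
    (h : (1 - PowerSeries.C ((y⁻¹ : Rˣ) : R) * PowerSeries.X) * ser0 M y (hyp f (m + 1)) ∈
      ratR y S) :
    (1 - PowerSeries.C ((y : R) ^ m) * PowerSeries.X) * Ak M y f (m + 1) ∈
      ratR y (shiftS (m + 1) S) := by
  have h1 := rescale_mem y (m + 1) hS h
  rw [map_mul, map_sub, map_one, map_mul, rescale_C, rescale_X'] at h1
  have h2 : PowerSeries.C ((y⁻¹ : Rˣ) : R) * (PowerSeries.C ((y : R) ^ (m + 1)) *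
      PowerSeries.X) = PowerSeries.C ((y : R) ^ m) * PowerSeries.X := by
    rw [← mul_assoc, ← map_mul, pow_succ', ← mul_assoc, Units.inv_mul, one_mul]
  rw [h2] at h1
  have h3 := (ratR y (shiftS (m + 1) S)).mul_mem
    (CR_mem y (shiftS (m + 1) S) (((y⁻¹ : Rˣ) : R) ^ (m + 1))) h1
  unfold Ak
  convert h3 using 1
  ring

/-- **The zeta function of `f`.** -/
theorem mem_of_two (M : EMeas (P0 k) R) (y : Rˣ) (hy : M.L = y) (f : MvPolynomial (Fin n) k)
    (m : ℕ) {S1 S2 : Set (ℤ × ℤ)} (hS1 : ∀ p ∈ S1, 0 < p.2) (hS2 : ∀ p ∈ S2, 0 < p.2)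
    (h1 : (1 - PowerSeries.C ((y⁻¹ : Rˣ) : R) * PowerSeries.X) * ser0 M y (hyp f (m + 1)) ∈
      ratR y S1)
    (h2 : (1 - PowerSeries.C ((y⁻¹ : Rˣ) : R) * PowerSeries.X) * ser0 M y (hyp f (m + 2)) ∈
      ratR y S2) :
    ser0 M y f ∈ ratR y (insert (-1, 1) (shiftS (m + 1) S1 ∪ shiftS (m + 2) S2)) := by
  set T : Set (ℤ × ℤ) := insert (-1, 1) (shiftS (m + 1) S1 ∪ shiftS (m + 2) S2) with hT
  have g1 := ratR_mono y (T := T) (fun p hp => Or.inr (Or.inl hp)) (ak_mem M y f m hS1 h1)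
  have g2 := ratR_mono y (T := T) (fun p hp => Or.inr (Or.inr hp)) (ak_mem M y f (m + 1) hS2 h2)
  have g3 : ser0 M y f * (PowerSeries.C ((y : R) ^ (m + 1)) *
      (1 - PowerSeries.C ((y⁻¹ : Rˣ) : R) * PowerSeries.X)) ∈ ratR y T := by
    rw [elimA M y hy f m]
    exact (ratR y T).sub_mem ((ratR y T).mul_mem (CR_mem y _ _) g1)
      ((ratR y T).mul_mem (CR_mem y _ _) g2)
  have g4 := geoR_mul y (-1) 1 one_pos
  rw [show (1 : ℤ).toNat = 1 from rfl, zpow_neg_one, pow_one] at g4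
  have g5 := (ratR y T).mul_mem (CR_mem y T (((y⁻¹ : Rˣ) : R) ^ (m + 1)))
    ((ratR y T).mul_mem g3 (geoR_mem y (S := T) (p := ((-1 : ℤ), (1 : ℤ)))
      (Set.mem_insert _ _)))
  have g6 : PowerSeries.C (((y⁻¹ : Rˣ) : R) ^ (m + 1)) * PowerSeries.C ((y : R) ^ (m + 1)) = 1 := by
    rw [← map_mul, ← mul_pow, Units.inv_mul, one_pow, map_one]
  convert g5 using 1
  linear_combination (-(ser0 M y f)) * g6 - (PowerSeries.C (((y⁻¹ : Rˣ) : R) ^ (m + 1)) *
    PowerSeries.C ((y : R) ^ (m + 1)) * ser0 M y f) * g4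

end Pool.Agent.T6.H16.ME
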