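import Pool.Agent.Y228.GN.ECn
import Pool.Agent.TH216.LR.Lr7
import Pool.Agent.T6.H16.ME.S2

set_option autoImplicit false

/-! The equivariant motivic zeta function at the origin for affinely independent exponents, with the
denominator `1 - 𝕃⁻¹ T` separated. -/

namespace Pool.Agent.T6.H16.ME

section A

open Pool.Agent.TH216.MF
open Pool.Agent.W426.SM (gord ford IsRay)
open Pool.Agent.W428.MOT (geoR InRat cp)

variable {R : Type} [CommRing R] (u : Rˣ) {r N : ℕ}

/-- From classes with relations to rationality, without the denominator `1 - 𝕃⁻¹ T`. -/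
theorem inRat_J' {S : Set (ℤ × ℤ)} (v : Fin r → Fin N → ℕ)
    (J : Finset (Fin N)) (l : List (Fin N → ℕ))
    (hl : ∀ a ∈ l, 0 < gord v a ∧ (-((∑ i, a i : ℕ) : ℤ), (gord v a : ℤ)) ∈ S)
    (hG : ∀ κ, IsPol (Gd v J κ * (l.map (fac v)).prod)) (w : R)
    (Ad : Finset (Fin r) → Prop) (hAd : ∀ τ τ', τ ⊆ τ' → Ad τ' → Ad τ)
    (hAd0 : ∀ τ, ¬ Ad τ → cser v J τ = 0) (b0 b1 : Finset (Fin r) → R) (h00 : b0 ∅ = 0)
    (h10 : b1 ∅ = w)
    (hb0 : ∀ i ∈ J, ∀ j0, v j0 i = 1 → ∀ τ, (∀ j ∈ τ, v j i = 0) → Ad (insert j0 τ) →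
      b0 (insert j0 τ) = w * ((u : R) - 1) ^ (J.card - frc v J (insert j0 τ) - 1) -
        ((u : R) - 1) ^ (frc v J τ - frc v J (insert j0 τ) - 1) * b0 τ)
    (hb1 : ∀ i ∈ J, ∀ j0, v j0 i = 1 → ∀ τ, (∀ j ∈ τ, v j i = 0) → Ad (insert j0 τ) →
      b1 (insert j0 τ) = w * ((u : R) - 1) ^ (J.card - frc v J (insert j0 τ) - 1) -
        ((u : R) - 1) ^ (frc v J τ - frc v J (insert j0 τ) - 1) * b1 τ) :
    FR u v J b0 b1 * (1 - PowerSeries.C ((u⁻¹ : Rˣ) : R) * PowerSeries.X) ∈ ratR u S := by
  classical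
  set Y : R := ((u⁻¹ : Rˣ) : R) with hY
  have huY : (u : R) * Y = 1 := Units.mul_inv u
  set c : Finset (Fin r) → R := fun τ => w * Y * ((u : R) - 1) ^ (J.card - frc v J τ) with hc
  -- the homogeneous relations
  have hhom : ∀ b : Finset (Fin r) → R,
      (∀ i ∈ J, ∀ j0, v j0 i = 1 → ∀ τ, (∀ j ∈ τ, v j i = 0) → Ad (insert j0 τ) →
      b (insert j0 τ) = w * ((u : R) - 1) ^ (J.card - frc v J (insert j0 τ) - 1) -
        ((u : R) - 1) ^ (frc v J τ - frc v J (insert j0 τ) - 1) * b τ) →
      ∀ τ, Ad τ → b τ - c τ = (-1) ^ (τ.card + (bas v J τ).card) *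
        ((u : R) - 1) ^ (mx v J (bas v J τ) - (frc v J τ + τ.card)) *
          (b (bas v J τ) - c (bas v J τ)) := by
    intro b hb
    refine decomp (u : R) v J Ad hAd (fun τ => b τ - c τ) ?_
    intro i hi j0 hj0 τ hτ hA
    have h1 := free_step v J i hi j0 hj0 τ hτ
    have h2 := frc_le v J τ
    simp only [hc]
    rw [hb i hi j0 hj0 τ hτ hA]
    set m := J.card - frc v J (insert j0 τ) - 1 with hm
    set d := frc v J τ - frc v J (insert j0 τ) - 1 with hd
    have e1 : J.card - frc v J (insert j0 τ) = m + 1 := by omega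
    have e2 : d + (J.card - frc v J τ) = m := by omega
    rw [e1, ← e2, pow_succ, pow_add]
    linear_combination (-(w * ((u : R) - 1) ^ d * ((u : R) - 1) ^ (J.card - frc v J τ))) * huY
  have hh0 := hhom b0 hb0
  have hh1 := hhom b1 hb1
  set Cs : Finset (Fin r) → PowerSeries R := fun τ => PowerSeries.map (evR u) (cser v J τ)
    with hCs
  have hCs0 : ∀ τ, ¬ Ad τ → Cs τ = 0 := fun τ h => by
    simp only [hCs]
    rw [hAd0 τ h, map_zero]
  -- the images of the universal series
  have hPsi : ∀ κ, PowerSeries.C ((u : R) ^ J.card) * PowerSeries.map (evR u) (Psi v J κ) =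
      ∑ τ, PowerSeries.C (if bas v J τ = κ then
        (-1) ^ (τ.card + κ.card) * ((u : R) - 1) ^ (mx v J κ - (frc v J τ + τ.card)) *
          (u : R) ^ frc v J τ else 0) * Cs τ := by
    intro κ
    unfold Psi
    rw [map_sum, Finset.mul_sum]
    refine Finset.sum_congr rfl fun τ _ => ?_
    rw [map_mul, PowerSeries.map_C, ← mul_assoc, ← map_mul, evR_cf]
  have hOmg : PowerSeries.C ((u : R) ^ J.card) * PowerSeries.map (evR u) (Omg v J) =
      ∑ τ, PowerSeries.C ((u : R) ^ frc v J τ * ((u : R) - 1) ^ (J.card - frc v J τ)) *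
        Cs τ := by
    unfold Omg
    rw [map_sum, Finset.mul_sum]
    refine Finset.sum_congr rfl fun τ _ => ?_
    rw [map_mul, PowerSeries.map_C, ← mul_assoc, ← map_mul, map_pow, map_sub, map_one, evR_X]
    congr 2
    obtain ⟨d, hd⟩ : ∃ d, J.card = frc v J τ + d := ⟨J.card - frc v J τ, by
      have := frc_le v J τ
      omega⟩
    rw [hd, show frc v J τ + d - frc v J τ = d by omega, pow_add, mul_assoc, ← mul_pow, mul_sub,
      mul_one, Units.mul_inv]
  -- `B_κ`
  set B : Finset (Fin r) → PowerSeries R := fun κ =>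
    PowerSeries.C (b0 κ - c κ) * (1 - PowerSeries.C Y * PowerSeries.X) +
      PowerSeries.C (b1 κ - c κ) * (PowerSeries.C Y * PowerSeries.X) with hB
  have hgeo : (1 - PowerSeries.C Y * PowerSeries.X) * geoR u (-1) 1 = 1 := by
    have h1 := geoR_mul u (-1) 1 one_pos
    rw [zpow_neg_one] at h1
    have h2 : (1 : ℤ).toNat = 1 := rfl
    rw [h2, pow_one] at h1
    exact h1
  -- the total
  have htot : FR u v J b0 b1 * (1 - PowerSeries.C Y * PowerSeries.X) =
      PowerSeries.C ((u : R) ^ J.card) * (PowerSeries.C (w * Y) *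
        PowerSeries.map (evR u) (Omg v J) + ∑ κ, B κ * PowerSeries.map (evR u) (Psi v J κ)) := by
    rw [mul_add, Finset.mul_sum]
    have e1 : PowerSeries.C ((u : R) ^ J.card) * (PowerSeries.C (w * Y) *
        PowerSeries.map (evR u) (Omg v J)) = PowerSeries.C (w * Y) *
          ∑ τ, PowerSeries.C ((u : R) ^ frc v J τ * ((u : R) - 1) ^ (J.card - frc v J τ)) *
            Cs τ := by
      rw [← hOmg]
      ring
    have e2 : ∀ κ, PowerSeries.C ((u : R) ^ J.card) * (B κ *
        PowerSeries.map (evR u) (Psi v J κ)) = ∑ τ, B κ * (PowerSeries.C (if bas v J τ = κ then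
        (-1) ^ (τ.card + κ.card) * ((u : R) - 1) ^ (mx v J κ - (frc v J τ + τ.card)) *
          (u : R) ^ frc v J τ else 0) * Cs τ) := by
      intro κ
      rw [← Finset.mul_sum, ← hPsi κ]
      ring
    rw [e1, Finset.sum_congr rfl fun κ _ => e2 κ, Finset.sum_comm, Finset.mul_sum,
      ← Finset.sum_add_distrib]
    unfold FR
    rw [Finset.sum_mul]
    refine Finset.sum_congr rfl fun τ _ => ?_
    rw [Finset.sum_eq_single (bas v J τ)]
    · rw [if_pos rfl]
      change PowerSeries.C ((u : R) ^ frc v J τ) * (PowerSeries.C (b0 τ) * Cs τ +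
        PowerSeries.C (b1 τ) * (PowerSeries.C Y * PowerSeries.X * Cs τ * geoR u (-1) 1)) *
          (1 - PowerSeries.C Y * PowerSeries.X) = _
      by_cases hA : Ad τ
      · have h0 := hh0 τ hA
        have h1 := hh1 τ hA
        set s : R := (-1) ^ (τ.card + (bas v J τ).card) *
          ((u : R) - 1) ^ (mx v J (bas v J τ) - (frc v J τ + τ.card)) with hs
        have h0' : PowerSeries.C (b0 τ) = PowerSeries.C (c τ) +
            PowerSeries.C s * PowerSeries.C (b0 (bas v J τ) - c (bas v J τ)) := by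
          rw [← map_mul, ← h0, ← map_add]
          congr 1
          ring
        have h1' : PowerSeries.C (b1 τ) = PowerSeries.C (c τ) +
            PowerSeries.C s * PowerSeries.C (b1 (bas v J τ) - c (bas v J τ)) := by
          rw [← map_mul, ← h1, ← map_add]
          congr 1
          ring
        rw [h0', h1']
        have hcτ : PowerSeries.C (c τ) = PowerSeries.C (w * Y) *
            PowerSeries.C (((u : R) - 1) ^ (J.card - frc v J τ)) := by
          rw [← map_mul]
        rw [hcτ, map_mul PowerSeries.C s, map_mul PowerSeries.C ((u : R) ^ frc v J τ)]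
        simp only [hB]
        linear_combination (PowerSeries.C ((u : R) ^ frc v J τ) *
          (PowerSeries.C (w * Y) * PowerSeries.C (((u : R) - 1) ^ (J.card - frc v J τ)) +
            PowerSeries.C s * PowerSeries.C (b1 (bas v J τ) - c (bas v J τ))) *
            (PowerSeries.C Y * PowerSeries.X * Cs τ)) * hgeo
      · rw [hCs0 τ hA]
        ring
    · intro κ _ hκ
      rw [if_neg (Ne.symm hκ), map_zero, zero_mul, mul_zero]
    · intro h
      exact absurd (Finset.mem_univ _) h
  -- the component of `∅`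
  have hB0 : B ∅ = PowerSeries.C (w * Y) * (PowerSeries.X - 1) := by
    simp only [hB, hc, h00, h10]
    rw [frc_empty, Nat.sub_self, pow_zero, mul_one, zero_sub, map_neg, map_sub, map_mul]
    ring
  have htot2 : PowerSeries.C (w * Y) * PowerSeries.map (evR u) (Omg v J) +
      ∑ κ, B κ * PowerSeries.map (evR u) (Psi v J κ) =
      PowerSeries.C (w * Y) * PowerSeries.map (evR u) (Gd v J ∅) +
        ∑ κ ∈ Finset.univ.erase ∅, B κ * PowerSeries.map (evR u) (Gd v J κ) := by
    rw [← Finset.add_sum_erase _ _ (Finset.mem_univ (∅ : Finset (Fin r))), hB0, ← add_assoc]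
    congr 1
    · have e0 : PowerSeries.map (evR u) (Gd v J ∅) = (PowerSeries.X - 1) *
          PowerSeries.map (evR u) (Psi v J ∅) + PowerSeries.map (evR u) (Omg v J) := by
        unfold Gd
        rw [if_pos rfl, map_add, map_mul, map_sub, map_one, PowerSeries.map_X]
      rw [e0]
      ring
    · refine Finset.sum_congr rfl fun κ hκ => ?_
      unfold Gd
      rw [if_neg (Finset.ne_of_mem_erase hκ)]
  have hmem : FR u v J b0 b1 * (1 - PowerSeries.C Y * PowerSeries.X) ∈ ratR u S := by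
    rw [htot, htot2]
    have hBm : ∀ κ, B κ ∈ ratR u S := fun κ =>
      (ratR u S).add_mem ((ratR u S).mul_mem (CR_mem u S _) ((ratR u S).sub_mem
        (ratR u S).one_mem ((ratR u S).mul_mem (CR_mem u S _) (XR_mem u S))))
        ((ratR u S).mul_mem (CR_mem u S _) ((ratR u S).mul_mem (CR_mem u S _) (XR_mem u S)))
    have hGm : ∀ κ, PowerSeries.map (evR u) (Gd v J κ) ∈ ratR u S := fun κ =>
      ratR_mem u v l hl _ (hG κ)
    exact (ratR u S).mul_mem (CR_mem u S _) ((ratR u S).add_mem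
      ((ratR u S).mul_mem (CR_mem u S _) (hGm ∅))
      ((ratR u S).sum_mem fun κ _ => (ratR u S).mul_mem (hBm κ) (hGm κ)))
  exact hmem

end A

section B
open Pool.Agent.TH216.MF
open MvPolynomial
open Pool.Agent.W428.MOT Pool.Agent.W749.MT Pool.Agent.W749.ME Pool.Agent.W425.MM
open Pool.Agent.W425.MM.Mot
open Pool.Agent.W375.MG (Good GB0 GB1 constr_W constr_GB1 zetaG)
open Pool.Agent.TH216.MC (b0_empty b0_rel b1_rel pos_of_ray ex_classes ford_eq cser_zero)
open Pool.Agent.W426.SM (gord ford IsRay face)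
open Pool.Agent.W63.MTFin (mapMeas geo_sum L_mul ev C_mem X_mem)
open Pool.Agent.Y231.N4 Pool.Agent.Y228.GN

/-- **Equivariant motivic zeta functions at the origin of a polynomial which is nondegenerate for the
compact faces: only the rays which are not bad.** -/
theorem finNc' {n r : ℕ} (m : Fin r → Fin n → ℕ) (hr0 : 0 < r)
    (Bad : ℚ → Prop)
    (hB : ∀ q : ℕ, 2 ≤ q → ∀ e : Finset (Fin r) → ℂ,
      KRelJ q m Finset.univ e → ∀ T0 : ℂ, T0 ≠ 0 → ∀ σ : ℚ, Bad σ →
      Real.log ‖T0‖ / Real.log q = (σ : ℝ) → RecJ q m e Finset.univ T0) :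
    ∃ S : Finset (ℤ × ℤ),
      (∀ p ∈ S, ∃ a : Fin n → ℕ, IsRay m a ∧ 0 < gord m a ∧
        ¬ Bad (((∑ i, a i : ℕ) : ℚ) / gord m a) ∧
        p = (-((∑ i, a i : ℕ) : ℤ), (gord m a : ℤ))) ∧
      (∀ (k : Type) [Field k] [CharZero k] (c : Fin r → k),
        (∀ u, Pool.Agent.W428.MOT.Adm Finset.univ u → NonU m c u) → (∀ j, c j ≠ 0) →
        ∀ (R : Type) [CommRing R] (y : Rˣ) (M : EMeas (sp 0 m c 1) R), M.L = (y : R) →
        OrigM M → (1 - PowerSeries.C ((y⁻¹ : Rˣ) : R) * PowerSeries.X) * serM M y ∈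
          ratR y (S : Set (ℤ × ℤ))) := by
  classical
  obtain ⟨l, hl, hG⟩ := formal hr0 m Finset.univ Bad hB
  set S : Finset (ℤ × ℤ) :=
    (l.toFinset.image fun a => (-((∑ i, a i : ℕ) : ℤ), (gord m a : ℤ))) with hS
  have hS2 : ∀ a ∈ l, (-((∑ i, a i : ℕ) : ℤ), (gord m a : ℤ)) ∈ S :=
    fun a ha => (Finset.mem_image.2 ⟨a, List.mem_toFinset.2 ha, rfl⟩)
  refine ⟨S, fun p hp => ?_, ?_⟩
  · obtain ⟨a, ha, rfl⟩ := Finset.mem_image.1 hp
    obtain ⟨ha1, ha2, ha3⟩ := hl a (List.mem_toFinset.1 ha)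
    exact ⟨a, ha1, ha2, ha3, rfl⟩
  · intro k _ _ c hNon hc R _ y M hML hO
    have h5 : S_CP1 := Pool.Agent.W346.MTCp1.main
    have hFree : S_EFree := Pool.Agent.W230.ME.Free.main
    have hSub : S_ESub := Pool.Agent.W366.MESub.main
    have hTay : S_Tay := Pool.Agent.W417.MT.Tay.main
    have hTw : S_ETw := Pool.Agent.W578.ME.etw
    set Y : R := ((y⁻¹ : Rˣ) : R) with hY
    have hL : M.L * Y = 1 := by rw [hML, Units.mul_inv]
    -- the classes
    have hcls : ∀ J : Finset (Fin n), ∃ (b0 b1 : Finset (Fin r) → R),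
        (∀ (τ : Finset (Fin r)) (u : Fin n → ℕ), Pool.Agent.W428.MOT.Adm J u → amin m u = τ →
        (0 < ford 0 m 1 u →
          M.χ _ (EB0 0 m c 1 J τ) (bw 0 m J τ u) (ford 0 m 1 u) (bb J) = b0 τ) ∧
        ∀ l, 1 ≤ l →
          M.χ _ (EB1 0 m c 1 J τ) (bw1 0 m J τ u l) (ford 0 m 1 u + 1 * l) (bb1 J) = b1 τ) ∧
        FR y m J b0 b1 * (1 - PowerSeries.C ((y⁻¹ : Rˣ) : R) * PowerSeries.X) ∈
          ratR y (S : Set (ℤ × ℤ)) ∧
        (J ≠ Finset.univ → ∀ τ, b0 τ = 0 ∧ b1 τ = 0) := by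
      intro J
      by_cases hJ : J = Finset.univ
      · subst hJ
        obtain ⟨b0, b1, hb00, hb, hrel⟩ := ex_classes hTw hFree hSub hc hr0 M Finset.univ
        refine ⟨b0, b1, hb, ?_, fun h => absurd rfl h⟩
        refine inRat_J' y m Finset.univ l (fun a ha => ⟨(hl a ha).2.1, hS2 a ha⟩) hG
          (b1 ∅) (fun τ => ∃ u : Fin n → ℕ, Pool.Agent.W428.MOT.Adm Finset.univ u ∧ τ ⊆ amin m u)
          (fun τ τ' hs h => ?_) (fun τ h => cser_zero m Finset.univ τ h) b0 b1 hb00 rfl ?_ ?_
        · obtain ⟨u, hu1, hu2⟩ := h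
          exact ⟨u, hu1, hs.trans hu2⟩
        · intro i hi j0 hj0 τ hτ hA
          rw [← hML]
          exact (hrel i hi j0 hj0 τ hτ hA).1
        · intro i hi j0 hj0 τ hτ hA
          rw [← hML]
          exact (hrel i hi j0 hj0 τ hτ hA).2
      · obtain ⟨i, hi⟩ : ∃ i, i ∉ J := by
          by_contra hcon
          push Not at hcon
          exact hJ (Finset.eq_univ_iff_forall.2 hcon)
        refine ⟨fun _ => 0, fun _ => 0, fun τ u hu hτ => ⟨fun hf => ?_, fun l hl => ?_⟩, ?_,
          fun _ _ => ⟨rfl, rfl⟩⟩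
        · refine hO _ _ _ _ _
            (Pool.Agent.W605.MEInd.valid0 0 m c 1 one_pos J τ u hu hτ hf) fun z hz h0 => ?_
          have h6 := congrFun h0 i
          have h7 : cbase (bb J) z i = z i := by
            unfold cbase bb
            rw [if_neg hi]
            rfl
          rw [h7] at h6
          exact hz.1 i h6
        · refine hO _ _ _ _ _
            (Pool.Agent.W605.MEInd.valid1 0 m c 1 one_pos J τ u hu hτ l hl) fun z hz h0 => ?_
          have h6 := congrFun h0 i
          have h7 : cbase (bb1 J) z i = z (some i) := by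
            unfold cbase bb1
            rw [if_neg hi]
            rfl
          rw [h7] at h6
          exact hz.1 i h6
        · have h6 : FR y m J (fun _ => (0 : R)) (fun _ => 0) = 0 := by
            unfold FR
            refine Finset.sum_eq_zero fun τ _ => ?_
            simp
          rw [h6, zero_mul]
          exact (ratR y (S : Set (ℤ × ℤ))).zero_mem
    choose b0 b1 hb hFRm hb0 using hcls
    have hsum := eSumPc
      (Pool.Agent.W375.MT.EJet.main hFree) Pool.Agent.W375.MT.EShift.main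
      (Pool.Agent.W375.MT.ECond.main Pool.Agent.W440.MT.ord)
      (EMot.eStB hFree hTay) hFree hSub hTay 0 m c 1 M hNon hO hr0 one_pos Y hL b0 b1
      hb hb0
    -- the series
    set C : Finset (Fin n) → Finset (Fin r) → PowerSeries R := fun J τ =>
      PowerSeries.map (evR y) (cser m J τ) with hCdef
    have hCc : ∀ J τ N, PowerSeries.coeff N (C J τ) =
        Polynomial.eval₂ (Int.castRingHom R) Y (cp 0 m 1 J τ N N) := fun J τ N => by
      simp only [hCdef, cser]
      rw [PowerSeries.coeff_map, PowerSeries.coeff_mk]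
      rfl
    set D : Finset (Fin n) → Finset (Fin r) → PowerSeries R := fun J τ =>
      PowerSeries.mk fun N => ∑ l ∈ Finset.Icc 1 N,
        if 1 * l ≤ N then Y ^ l * PowerSeries.coeff (N - 1 * l) (C J τ) else 0
      with hDdef
    have hD : ∀ J τ, D J τ = PowerSeries.C Y * PowerSeries.X * C J τ * geoR y (-1) 1 := by
      intro J τ
      have h6 := geo_sum Y (fun N => PowerSeries.coeff N (C J τ)) 1 one_pos
      have h7 := geoR_mul y (-1) 1 one_pos
      rw [show (1 : ℤ).toNat = 1 from rfl, zpow_neg_one] at h7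
      have h9 : PowerSeries.mk (fun N => PowerSeries.coeff N (C J τ)) = C J τ := by
        ext N
        rw [PowerSeries.coeff_mk]
      rw [h9] at h6
      have h10 : D J τ * ((1 - PowerSeries.C Y * PowerSeries.X ^ 1) * geoR y (-1) 1) =
          PowerSeries.C Y * PowerSeries.X ^ 1 * C J τ * geoR y (-1) 1 := by
        rw [← h6, mul_assoc]
      rw [h7, mul_one, pow_one] at h10
      exact h10
    set F : PowerSeries R := ∑ J : Finset (Fin n), FR y m J (b0 J) (b1 J) with hF
    have hFmem : F * (1 - PowerSeries.C ((y⁻¹ : Rˣ) : R) * PowerSeries.X) ∈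
        ratR y (S : Set (ℤ × ℤ)) := by
      rw [hF, Finset.sum_mul]
      exact (ratR y (S : Set (ℤ × ℤ))).sum_mem fun J _ => hFRm J
    have hz : serM M y = F - PowerSeries.C (PowerSeries.coeff 0 F) := by
      ext N
      by_cases hN : N = 0
      · subst hN
        rw [serM, PowerSeries.coeff_mk, if_neg (lt_irrefl 0), map_sub, PowerSeries.coeff_C,
          if_pos rfl, sub_self]
      · have hN' : 0 < N := Nat.pos_of_ne_zero hN
        rw [serM, PowerSeries.coeff_mk, if_pos hN', map_sub, PowerSeries.coeff_C, if_neg hN,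
          sub_zero]
        have h6 := hsum N hN'
        rw [← hY, h6, hF, map_sum]
        refine Finset.sum_congr rfl fun J _ => ?_
        unfold FR
        rw [map_sum]
        refine Finset.sum_congr rfl fun τ _ => ?_
        change _ = PowerSeries.coeff N (PowerSeries.C ((y : R) ^ frc m J τ) *
          (PowerSeries.C (b0 J τ) * C J τ + PowerSeries.C (b1 J τ) *
            (PowerSeries.C Y * PowerSeries.X * C J τ * geoR y (-1) 1)))
        rw [← hD, ← hML, PowerSeries.coeff_C_mul, map_add, PowerSeries.coeff_C_mul,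
          PowerSeries.coeff_C_mul, hCc, hDdef, PowerSeries.coeff_mk, Finset.mul_sum]
        congr 2
        refine Finset.sum_congr rfl fun i _ => ?_
        split_ifs with hi
        · rw [hCc, h5 0 m 1 J τ hr0 one_pos N (N - 1 * i) (Nat.sub_le _ _), mul_assoc]
        · rw [mul_zero]
    have h6 : (1 - PowerSeries.C ((y⁻¹ : Rˣ) : R) * PowerSeries.X) * serM M y =
        F * (1 - PowerSeries.C ((y⁻¹ : Rˣ) : R) * PowerSeries.X) -
        PowerSeries.C (PowerSeries.coeff 0 F) *
          (1 - PowerSeries.C ((y⁻¹ : Rˣ) : R) * PowerSeries.X) := by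
      rw [hz]
      ring
    rw [h6]
    exact (ratR y (S : Set (ℤ × ℤ))).sub_mem hFmem ((ratR y (S : Set (ℤ × ℤ))).mul_mem
      (CR_mem y _ _) ((ratR y (S : Set (ℤ × ℤ))).sub_mem (ratR y (S : Set (ℤ × ℤ))).one_mem
        ((ratR y (S : Set (ℤ × ℤ))).mul_mem (CR_mem y _ _) (XR_mem y _))))


end B

end Pool.Agent.T6.H16.ME
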